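import Pool.Agent.helper74.FC.Final

/-!
# Marked residue classes (MP_bb5cc8_nt): the bound for every set of primes
-/

set_option autoImplicit false

namespace Pool.Agent.FC

open Finset

theorem EE_leQ (α : ℝ) (N : ℕ) (a : (p : ℕ) → ZMod p) (Q : Finset ℕ)
    (hQ : ∀ p ∈ Q, p.Prime ∧ (N : ℝ) ^ α ≤ (p : ℝ) ∧ (p : ℝ) < 2 * (N : ℝ) ^ α) :
    (EE N Q fun p => ((a p).val : ℤ)).card ≤
      {n : ℕ | 1 ≤ n ∧ n ≤ N ∧ ∃ p ∈ Q, (n : ZMod p) = a p}.ncard := by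
  classical
  have h1 : (((EE N Q fun p => ((a p).val : ℤ)).image Int.toNat)).card =
      (EE N Q fun p => ((a p).val : ℤ)).card := by
    apply Finset.card_image_of_injOn
    intro x hx y hy e
    rw [Finset.mem_coe, mem_EE, Finset.mem_Icc] at hx hy
    have h2 := Int.toNat_of_nonneg (by omega : 0 ≤ x)
    have h3 := Int.toNat_of_nonneg (by omega : 0 ≤ y)
    rw [← h2, ← h3, e]
  rw [← h1, ← Set.ncard_coe_finset]
  apply Set.ncard_le_ncard _ ((Set.finite_Icc 1 N).subset fun _ hn => ⟨hn.1, hn.2.1⟩)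
  intro n hn
  rw [Finset.mem_coe, Finset.mem_image] at hn
  obtain ⟨x, hx, rfl⟩ := hn
  rw [mem_EE, Finset.mem_Icc] at hx
  obtain ⟨⟨hx1, hx2⟩, p, hp, hpx⟩ := hx
  obtain ⟨hp1, hp2, hp3⟩ := hQ p hp
  haveI : NeZero p := ⟨hp1.ne_zero⟩
  refine ⟨by omega, by omega, p, hp, ?_⟩
  have h2 : ((x.toNat : ℕ) : ZMod p) = ((x : ℤ) : ZMod p) := by
    have := Int.toNat_of_nonneg (by omega : 0 ≤ x)
    calc ((x.toNat : ℕ) : ZMod p) = (((x.toNat : ℕ) : ℤ) : ZMod p) := by push_cast; rfl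
      _ = ((x : ℤ) : ZMod p) := by rw [this]
  rw [h2]
  have h3 : ((((a p).val : ℤ)) : ZMod p) = ((x : ℤ) : ZMod p) :=
    (ZMod.intCast_eq_intCast_iff_dvd_sub _ _ _).2 hpx
  rw [← h3]
  push_cast
  exact ZMod.natCast_zmod_val (a p)

theorem TB_seq {δ : ℝ} (hδ : 0 < δ) : ∃ κ : ℝ, 3 ≤ κ ∧ κ ≤ 2 + Real.sqrt 2 + δ ∧ TB κ := by
  have hs := Real.sqrt_nonneg 2
  have hs2 : Real.sqrt 2 * Real.sqrt 2 = 2 := Real.mul_self_sqrt (by norm_num)
  have hs1 : 1 ≤ Real.sqrt 2 := by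
    rw [Real.one_le_sqrt]
    norm_num
  obtain ⟨j, hj⟩ := exists_pow_lt_of_lt_one hδ (by norm_num : (1 : ℝ) / 2 < 1)
  obtain ⟨β, h1, h2, h3, h4⟩ := LV_seq j
  refine ⟨4 - 1 / β, ?_, ?_, TB_of_LV h1 h4⟩
  · have : 1 / β ≤ 1 := by
      rw [div_le_one (by linarith)]
      exact h1
    linarith
  · have hb0 : 0 < 1 + Real.sqrt 2 / 2 := by linarith
    have hβ0 : 0 < β := by linarith
    have e1 : 1 / (1 + Real.sqrt 2 / 2) = 2 - Real.sqrt 2 := by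
      rw [div_eq_iff hb0.ne']
      nlinarith
    have e2 : 1 / (1 + Real.sqrt 2 / 2) - 1 / β ≤ β - (1 + Real.sqrt 2 / 2) := by
      rw [div_sub_div _ _ hb0.ne' hβ0.ne', div_le_iff₀ (by positivity)]
      have h5 : 0 ≤ β - (1 + Real.sqrt 2 / 2) := by linarith
      have h6 : 1 ≤ (1 + Real.sqrt 2 / 2) * β := by nlinarith
      nlinarith
    linarith

/-- the lower bound for the union of the classes of any set of primes -/
theorem allQ (α : ℝ) (hα : 1 / 2 < α) (hα1 : α < 1) (ε : ℝ) (hε : 0 < ε) :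
    ∃ N₀ : ℕ, ∀ N : ℕ, N₀ ≤ N → ∀ a : (p : ℕ) → ZMod p, ∀ Q : Finset ℕ,
      (∀ p ∈ Q, p.Prime ∧ (N : ℝ) ^ α ≤ (p : ℝ) ∧ (p : ℝ) < 2 * (N : ℝ) ^ α) →
      min ((Q.card * (N : ℝ) ^ (2 - 2 * α)) ^ (2 - Real.sqrt 2))
          ((Q.card : ℝ) ^ (2 / 3 : ℝ) * (N : ℝ) ^ (1 - α)) ≤
        (N : ℝ) ^ ε * ({n : ℕ | 1 ≤ n ∧ n ≤ N ∧ ∃ p ∈ Q, (n : ZMod p) = a p}.ncard : ℝ) := by
  classical
  have hs := Real.sqrt_nonneg 2
  have hs2 : Real.sqrt 2 * Real.sqrt 2 = 2 := Real.mul_self_sqrt (by norm_num)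
  have hs1 : 1 ≤ Real.sqrt 2 := by
    rw [Real.one_le_sqrt]
    norm_num
  have hs3 : Real.sqrt 2 ≤ 3 / 2 := by
    rw [Real.sqrt_le_left (by norm_num)]
    norm_num
  obtain ⟨κ, hκ3, hκ, hTB⟩ := TB_seq (δ := ε / 4) (by linarith)
  obtain ⟨N₁, hN₁⟩ := top hTB α hα hα1 (ε / 4) (by linarith)
  have ev3 : ∀ᶠ N : ℕ in Filter.atTop, (2 : ℝ) ≤ (N : ℝ) ^ (ε / 4) :=
    ((tendsto_rpow_atTop (by linarith : 0 < ε / 4)).comp
      tendsto_natCast_atTop_atTop).eventually_ge_atTop _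
  obtain ⟨N₂, hN₂⟩ := Filter.eventually_atTop.mp (ev3.and (Filter.eventually_ge_atTop 3))
  refine ⟨max N₁ N₂, ?_⟩
  intro N hN a Q hQ
  obtain ⟨e3, hN3⟩ := hN₂ N ((le_max_right _ _).trans hN)
  have hNR3 : (3 : ℝ) ≤ N := by exact_mod_cast hN3
  have hN0 : (0 : ℝ) < N := by linarith
  have hN1 : (1 : ℝ) ≤ N := by linarith
  have main := hN₁ N ((le_max_left _ _).trans hN) Q (fun p => ((a p).val : ℤ)) hQ (by
    intro p hp
    haveI : NeZero p := ⟨(hQ p hp).1.ne_zero⟩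
    refine ⟨by positivity, ?_⟩
    have := ZMod.val_lt (a p)
    exact_mod_cast this)
  have hEE := EE_leQ α N a Q hQ
  have hEEN : (EE N Q fun p => ((a p).val : ℤ)).card ≤ N := by
    have h1 : (EE N Q fun p => ((a p).val : ℤ)) ⊆ Icc (1 : ℤ) N := by
      intro x hx
      exact (mem_EE.1 hx).1
    have h2 := Finset.card_le_card h1
    rw [Int.card_Icc] at h2
    omega
  obtain ⟨n, hn⟩ : ∃ n : ℕ, n = (EE N Q fun p => ((a p).val : ℤ)).card := ⟨_, rfl⟩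
  rw [← hn] at main hEE hEEN
  have hEER : (n : ℝ) ≤ ({n : ℕ | 1 ≤ n ∧ n ≤ N ∧ ∃ p ∈ Q, (n : ZMod p) = a p}.ncard : ℝ) := by
    exact_mod_cast hEE
  refine le_trans ?_ (mul_le_mul_of_nonneg_left hEER (by positivity))
  have hnN : (n : ℝ) ≤ N := by exact_mod_cast hEEN
  obtain ⟨X, hX⟩ : ∃ X : ℝ, X = Q.card * (N : ℝ) ^ (2 - 2 * α) := ⟨_, rfl⟩
  rw [← hX] at main ⊢
  have hX0 : 0 ≤ X := by rw [hX]; positivity
  rcases Nat.eq_zero_or_pos n with hn0 | hn0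
  · rw [hn0, Nat.cast_zero, Real.zero_rpow (by linarith)] at main
    have h1 : X ^ 2 ≤ 0 := by
      refine main.trans ?_
      simp
    have h2 : X = 0 := by
      have h3 : 0 ≤ X ^ 2 := by positivity
      have h4 : X ^ 2 = 0 := le_antisymm h1 h3
      exact pow_eq_zero_iff (by norm_num) |>.1 h4
    rw [h2, Real.zero_rpow (by linarith)]
    refine (min_le_left _ _).trans ?_
    positivity
  have hnR1 : (1 : ℝ) ≤ n := by exact_mod_cast hn0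
  have hnR0 : (0 : ℝ) < n := by linarith
  have hmax : (n : ℝ) ^ κ + (N : ℝ) ^ (1 - α) * (n : ℝ) ^ 3 ≤
      2 * max ((n : ℝ) ^ κ) ((N : ℝ) ^ (1 - α) * (n : ℝ) ^ 3) := by
    have h1 := le_max_left ((n : ℝ) ^ κ) ((N : ℝ) ^ (1 - α) * (n : ℝ) ^ 3)
    have h2 := le_max_right ((n : ℝ) ^ κ) ((N : ℝ) ^ (1 - α) * (n : ℝ) ^ 3)
    linarith
  have main2 : X ^ 2 ≤ (N : ℝ) ^ (ε / 2) *
      max ((n : ℝ) ^ κ) ((N : ℝ) ^ (1 - α) * (n : ℝ) ^ 3) := by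
    have h0 : 0 ≤ max ((n : ℝ) ^ κ) ((N : ℝ) ^ (1 - α) * (n : ℝ) ^ 3) :=
      le_trans (by positivity) (le_max_left _ _)
    calc X ^ 2 ≤ (N : ℝ) ^ (ε / 4) * ((n : ℝ) ^ κ + (N : ℝ) ^ (1 - α) * (n : ℝ) ^ 3) := main
      _ ≤ (N : ℝ) ^ (ε / 4) * (2 * max ((n : ℝ) ^ κ) ((N : ℝ) ^ (1 - α) * (n : ℝ) ^ 3)) :=
          mul_le_mul_of_nonneg_left hmax (by positivity)
      _ ≤ (N : ℝ) ^ (ε / 4) * ((N : ℝ) ^ (ε / 4) *
            max ((n : ℝ) ^ κ) ((N : ℝ) ^ (1 - α) * (n : ℝ) ^ 3)) := by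
          apply mul_le_mul_of_nonneg_left _ (by positivity)
          exact mul_le_mul_of_nonneg_right e3 h0
      _ = _ := by
          rw [← mul_assoc, ← Real.rpow_add hN0]
          congr 2
          ring
  rcases max_choice ((n : ℝ) ^ κ) ((N : ℝ) ^ (1 - α) * (n : ℝ) ^ 3) with hm | hm
  · rw [hm] at main2
    refine (min_le_left _ _).trans ?_
    have h1 : (n : ℝ) ^ κ ≤ (N : ℝ) ^ (ε / 4) * (n : ℝ) ^ (2 + Real.sqrt 2) := by
      calc (n : ℝ) ^ κ ≤ (n : ℝ) ^ (ε / 4 + (2 + Real.sqrt 2)) :=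
            Real.rpow_le_rpow_of_exponent_le hnR1 (by linarith)
        _ = (n : ℝ) ^ (ε / 4) * (n : ℝ) ^ (2 + Real.sqrt 2) := Real.rpow_add hnR0 _ _
        _ ≤ _ := by
            apply mul_le_mul_of_nonneg_right _ (by positivity)
            exact Real.rpow_le_rpow hnR0.le hnN (by linarith)
    have h2 : X ^ 2 ≤ (N : ℝ) ^ ε * (n : ℝ) ^ (2 + Real.sqrt 2) := by
      calc X ^ 2 ≤ (N : ℝ) ^ (ε / 2) * (n : ℝ) ^ κ := main2
        _ ≤ (N : ℝ) ^ (ε / 2) * ((N : ℝ) ^ (ε / 4) * (n : ℝ) ^ (2 + Real.sqrt 2)) :=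
            mul_le_mul_of_nonneg_left h1 (by positivity)
        _ = (N : ℝ) ^ (3 * ε / 4) * (n : ℝ) ^ (2 + Real.sqrt 2) := by
            rw [← mul_assoc, ← Real.rpow_add hN0]
            congr 2
            ring
        _ ≤ (N : ℝ) ^ ε * (n : ℝ) ^ (2 + Real.sqrt 2) := by
            apply mul_le_mul_of_nonneg_right _ (by positivity)
            exact Real.rpow_le_rpow_of_exponent_le hN1 (by linarith)
    have h3 : (X ^ 2) ^ ((2 - Real.sqrt 2) / 2) ≤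
        ((N : ℝ) ^ ε * (n : ℝ) ^ (2 + Real.sqrt 2)) ^ ((2 - Real.sqrt 2) / 2) :=
      Real.rpow_le_rpow (by positivity) h2 (by linarith)
    have h4 : (X ^ 2) ^ ((2 - Real.sqrt 2) / 2) = X ^ (2 - Real.sqrt 2) := by
      rw [← Real.rpow_natCast X 2, ← Real.rpow_mul hX0]
      congr 1
      push_cast
      ring
    rw [h4, Real.mul_rpow (by positivity) (by positivity), ← Real.rpow_mul hN0.le,
      ← Real.rpow_mul hnR0.le] at h3
    have h5 : (2 + Real.sqrt 2) * ((2 - Real.sqrt 2) / 2) = 1 := by nlinarith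
    rw [h5, Real.rpow_one] at h3
    refine h3.trans ?_
    apply mul_le_mul_of_nonneg_right _ hnR0.le
    exact Real.rpow_le_rpow_of_exponent_le hN1 (by nlinarith)
  · rw [hm] at main2
    refine (min_le_right _ _).trans ?_
    have h3 : (X ^ 2) ^ ((1 : ℝ) / 3) ≤
        ((N : ℝ) ^ (ε / 2) * ((N : ℝ) ^ (1 - α) * (n : ℝ) ^ 3)) ^ ((1 : ℝ) / 3) :=
      Real.rpow_le_rpow (by positivity) main2 (by norm_num)
    have h4 : (X ^ 2) ^ ((1 : ℝ) / 3) =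
        (Q.card : ℝ) ^ (2 / 3 : ℝ) * (N : ℝ) ^ (4 * (1 - α) / 3) := by
      rw [← Real.rpow_natCast X 2, ← Real.rpow_mul hX0, hX,
        Real.mul_rpow (by positivity) (by positivity), ← Real.rpow_mul hN0.le]
      congr 2
      · push_cast
        ring
      · push_cast
        ring
    have h5 : ((N : ℝ) ^ (ε / 2) * ((N : ℝ) ^ (1 - α) * (n : ℝ) ^ 3)) ^ ((1 : ℝ) / 3) =
        (N : ℝ) ^ (ε / 6) * ((N : ℝ) ^ ((1 - α) / 3) * n) := by
      rw [Real.mul_rpow (by positivity) (by positivity),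
        Real.mul_rpow (by positivity) (by positivity), ← Real.rpow_mul hN0.le,
        ← Real.rpow_mul hN0.le, ← Real.rpow_natCast (n : ℝ) 3, ← Real.rpow_mul hnR0.le]
      have e6 : (((3 : ℕ) : ℝ) * (1 / 3)) = 1 := by push_cast; norm_num
      rw [e6, Real.rpow_one]
      have e7 : ε / 2 * (1 / 3) = ε / 6 := by ring
      have e8 : (1 - α) * (1 / 3) = (1 - α) / 3 := by ring
      rw [e7, e8]
    rw [h4, h5] at h3
    have h6 : (N : ℝ) ^ (4 * (1 - α) / 3) = (N : ℝ) ^ ((1 - α) / 3) * (N : ℝ) ^ (1 - α) := by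
      rw [← Real.rpow_add hN0]
      congr 1
      ring
    have h7 : 0 < (N : ℝ) ^ ((1 - α) / 3) := Real.rpow_pos_of_pos hN0 _
    have h8 : (N : ℝ) ^ ((1 - α) / 3) * ((Q.card : ℝ) ^ (2 / 3 : ℝ) * (N : ℝ) ^ (1 - α)) ≤
        (N : ℝ) ^ ((1 - α) / 3) * ((N : ℝ) ^ (ε / 6) * n) := by
      calc _ = (Q.card : ℝ) ^ (2 / 3 : ℝ) * (N : ℝ) ^ (4 * (1 - α) / 3) := by
            rw [h6]
            ring
        _ ≤ _ := h3
        _ = _ := by ring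
    refine (le_of_mul_le_mul_left h8 h7).trans ?_
    apply mul_le_mul_of_nonneg_right _ hnR0.le
    exact Real.rpow_le_rpow_of_exponent_le hN1 (by linarith)

end Pool.Agent.FC
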