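import Pool.Agent.helper74.FC.StepMain

/-!
# Marked residue classes (MP_bb5cc8_nt): the family of all marked classes
-/

set_option autoImplicit false

namespace Pool.Agent.FC

open Finset

/-- the bound for families with multiplicity `t` -/
def TB (κ : ℝ) : Prop := ∃ (S : Finset ℤ) (D : ℤ) (C : ℝ) (e Δ : ℕ),
    1 ≤ C ∧ D ∈ S ∧ ∀ (N : ℕ) (P : Finset ℕ) (c : ℕ → ℤ), Cfg N P → (∀ p ∈ P, Δ < p) →
    ∀ M : Finset MT, (∀ m ∈ M, IsM N P c S m) → ∀ t : ℕ, 1 ≤ t →
    (∀ (g : ℕ) (x : ℤ), (M.filter fun m => m.1 = g ∧ X D m = x).card ≤ t) →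
    ∀ L n : ℕ, 1 ≤ L → P.card * M.card ≤ 2 ^ L → t ≤ n → (∀ k ∈ S, (M.image (X k)).card ≤ n) →
    (M.card : ℝ) ^ 2 ≤ C * (L : ℝ) ^ e * ((n : ℝ) ^ κ + t * (n : ℝ) ^ 3)

theorem TB_of_LV {β : ℝ} (hβ : 1 ≤ β) (h : LV β) : TB (4 - 1 / β) := step hβ h

/-- all marked classes -/
theorem fam {N : ℕ} {Q : Finset ℕ} {c : ℕ → ℤ} (S : Finset ℤ) (H J T : ℕ)
    (hH : ∀ k ∈ S, |k| ≤ (H : ℤ)) (hH1 : 1 ≤ H) (hpr : ∀ p ∈ Q, p.Prime)
    (hc : ∀ p ∈ Q, 0 ≤ c p ∧ c p < p) (h1 : ∀ p ∈ Q, 6 * (p * T * H) ≤ N)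
    (h2 : ∀ p ∈ Q, 6 * (p * J) ≤ N) (h3 : ∀ p ∈ Q, 12 * p ≤ N) :
    ∃ M : Finset MT, (∀ m ∈ M, IsM N Q c S m) ∧ M.card = Q.card * (J * T) ∧
      ∀ (D : ℤ) (g : ℕ) (x : ℤ), (M.filter fun m => m.1 = g ∧ X D m = x).card ≤ T := by
  classical
  obtain ⟨f, hf⟩ : ∃ f : ℕ × ℕ × ℕ → MT, f = fun q =>
      (q.1, c q.1 + q.1 * (((N / (3 * q.1) + 1 + q.2.1 : ℕ)) : ℤ), (q.1 : ℤ) * ((q.2.2 + 1 : ℕ) : ℤ)) :=
    ⟨_, rfl⟩
  refine ⟨(Q ×ˢ (range J ×ˢ range T)).image f, ?_, ?_, ?_⟩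
  · intro m hm
    obtain ⟨⟨p, i, w⟩, hq, rfl⟩ := Finset.mem_image.1 hm
    rw [Finset.mem_product, Finset.mem_product, Finset.mem_range, Finset.mem_range] at hq
    obtain ⟨hp, hi, hw⟩ := hq
    simp only at hp hi hw
    have hp1 := (hpr p hp).pos
    obtain ⟨hc0, hc1⟩ := hc p hp
    have g1 := h1 p hp
    have g2 := h2 p hp
    have g3 := h3 p hp
    obtain ⟨u, hu⟩ : ∃ u : ℕ, u = N / (3 * p) := ⟨_, rfl⟩
    have hu1 : 3 * (p * u) ≤ N := by
      have := Nat.div_mul_le_self N (3 * p)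
      rw [← hu] at this
      calc 3 * (p * u) = u * (3 * p) := by ring
        _ ≤ N := this
    have hu2 : N < 3 * (p * (u + 1)) := by
      have := Nat.lt_div_mul_add (a := N) (b := 3 * p) (by omega)
      rw [← hu] at this
      calc N < u * (3 * p) + 3 * p := this
        _ = 3 * (p * (u + 1)) := by ring
    have hv1 : 6 * (H * (p * (w + 1))) ≤ N := by
      refine le_trans ?_ g1
      calc 6 * (H * (p * (w + 1))) ≤ 6 * (H * (p * T)) := by
            apply Nat.mul_le_mul_left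
            apply Nat.mul_le_mul_left
            apply Nat.mul_le_mul_left
            omega
        _ = 6 * (p * T * H) := by ring
    have hv2 : 6 * (p * (w + 1)) ≤ N := by
      refine le_trans ?_ hv1
      apply Nat.mul_le_mul_left
      exact Nat.le_mul_of_pos_left _ (by omega)
    have hi1 : 6 * (p * (i + 1)) ≤ N := by
      refine le_trans ?_ g2
      apply Nat.mul_le_mul_left
      apply Nat.mul_le_mul_left
      omega
    have zu1 : 3 * ((p : ℤ) * u) ≤ N := by exact_mod_cast hu1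
    have zu2 : (N : ℤ) < 3 * ((p : ℤ) * (u + 1)) := by exact_mod_cast hu2
    have zv1 : 6 * ((H : ℤ) * ((p : ℤ) * (w + 1))) ≤ N := by exact_mod_cast hv1
    have zv2 : 6 * ((p : ℤ) * (w + 1)) ≤ N := by exact_mod_cast hv2
    have zi1 : 6 * ((p : ℤ) * (i + 1)) ≤ N := by exact_mod_cast hi1
    have zp3 : 12 * (p : ℤ) ≤ N := by exact_mod_cast g3
    have zp1 : (1 : ℤ) ≤ p := by exact_mod_cast hp1
    have hvpos : 0 < (p : ℤ) * (w + 1) := by positivity
    rw [hf]
    refine ⟨hp, ?_, ?_, ?_, ?_, ?_⟩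
    · show (p : ℤ) ∣ c p + p * _ - c p
      rw [add_sub_cancel_left]
      exact dvd_mul_right _ _
    · show (p : ℤ) ∣ (p : ℤ) * _
      exact dvd_mul_right _ _
    · show (p : ℤ) * ((w + 1 : ℕ) : ℤ) ≠ 0
      push_cast
      exact hvpos.ne'
    · show |(p : ℤ) * ((w + 1 : ℕ) : ℤ)| ≤ N
      push_cast
      rw [abs_of_pos hvpos]
      linarith
    · intro k hk
      have hkH := hH k hk
      have hkv : |k * ((p : ℤ) * (w + 1))| ≤ (H : ℤ) * ((p : ℤ) * (w + 1)) := by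
        rw [abs_mul, abs_of_pos hvpos]
        exact mul_le_mul_of_nonneg_right hkH hvpos.le
      rw [abs_le] at hkv
      rw [Finset.mem_Icc]
      show 1 ≤ c p + (p : ℤ) * ((N / (3 * p) + 1 + i : ℕ) : ℤ) + k * ((p : ℤ) * ((w + 1 : ℕ) : ℤ)) ∧
        c p + (p : ℤ) * ((N / (3 * p) + 1 + i : ℕ) : ℤ) + k * ((p : ℤ) * ((w + 1 : ℕ) : ℤ)) ≤ N
      rw [← hu]
      push_cast
      have e1 : (p : ℤ) * ((u : ℤ) + 1 + i) = (p : ℤ) * (u + 1) + p * i := by ring
      have e2 : (p : ℤ) * (i + 1) = p * i + p := by ring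
      have e3 : (p : ℤ) * (u + 1) = p * u + p := by ring
      have hi0 : 0 ≤ (p : ℤ) * i := by positivity
      rw [e1]
      rw [e2] at zi1
      constructor
      · linarith [hkv.1]
      · rw [e3]
        linarith [hkv.2]
  · rw [Finset.card_image_of_injOn, Finset.card_product, Finset.card_product, Finset.card_range,
      Finset.card_range]
    rintro ⟨p, i, w⟩ hq ⟨p', i', w'⟩ hq' e
    rw [Finset.mem_coe, Finset.mem_product] at hq hq'
    rw [hf] at e
    simp only [Prod.mk.injEq] at e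
    obtain ⟨e1, e2, e3⟩ := e
    subst e1
    have hp1 := (hpr p hq.1).pos
    have hp0 : (p : ℤ) ≠ 0 := by
      have : (0 : ℤ) < p := by exact_mod_cast hp1
      exact this.ne'
    have e4 := mul_left_cancel₀ hp0 e3
    have e5 := mul_left_cancel₀ hp0 (add_left_cancel e2)
    have e6 : w + 1 = w' + 1 := by exact_mod_cast e4
    have e7 : N / (3 * p) + 1 + i = N / (3 * p) + 1 + i' := by exact_mod_cast e5
    have e8 : w = w' := by omega
    have e9 : i = i' := by omega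
    rw [e8, e9]
  · intro D g x
    have h4 : (((range T).image fun w : ℕ => (g : ℤ) * ((w + 1 : ℕ) : ℤ))).card ≤ T := by
      refine Finset.card_image_le.trans ?_
      rw [Finset.card_range]
    refine le_trans ?_ h4
    apply Finset.card_le_card_of_injOn (fun m => m.2.2)
    · intro m hm
      rw [Finset.mem_coe, Finset.mem_filter, Finset.mem_image] at hm
      obtain ⟨⟨⟨p, i, w⟩, hq, rfl⟩, hg, hx⟩ := hm
      rw [Finset.mem_product, Finset.mem_product, Finset.mem_range, Finset.mem_range] at hq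
      rw [hf] at hg
      simp only at hg
      rw [Finset.mem_coe, Finset.mem_image]
      refine ⟨w, Finset.mem_range.2 hq.2.2, ?_⟩
      rw [hf, ← hg]
    · intro m hm m' hm' e
      rw [Finset.mem_coe, Finset.mem_filter] at hm hm'
      simp only at e
      have h5 : m.2.1 = m'.2.1 := by
        have := hm.2.2.trans hm'.2.2.symm
        unfold X at this
        rw [e] at this
        linarith
      exact Prod.ext (hm.2.1.trans hm'.2.1.symm) (Prod.ext h5 e)

end Pool.Agent.FC
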