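import Pool.Agent.helper74.FC.Step

/-!
# Marked residue classes (MP_bb5cc8_nt): the fibres
-/

set_option autoImplicit false

namespace Pool.Agent.FC

open Finset

/-- the parameters of a step -/
structure Par (Sj : Finset ℤ) (E m0 D : ℤ) (ks : ℤ → ℤ) : Prop where
  E1 : 1 ≤ E
  kE : ∀ k ∈ Sj, k < E
  m1 : 1 ≤ m0
  dd : D = m0 * E
  hk : ∀ k ∈ Sj, (2 * E - k) * ks k = D * k

/-- the slices used by a step -/
structure Sl (Sj : Finset ℤ) (m0 D : ℤ) (ks : ℤ → ℤ) (S : Finset ℤ) : Prop where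
  km : ∀ k ∈ Sj, k * m0 ∈ S
  kk : ∀ k ∈ Sj, ks k ∈ S
  z : 0 ∈ S
  dd : D ∈ S
  nd : -D ∈ S

/-- pairs of marked classes with the same slice `D`, on different classes, in a good set -/
structure Gd (c : ℕ → ℤ) (M : Finset MT) (Sj : Finset ℤ) (D : ℤ) (ks : ℤ → ℤ)
    (V : Finset (MT × MT)) : Prop where
  m : ∀ q ∈ V, q.1 ∈ M ∧ q.2 ∈ M
  dd : ∀ q ∈ V, X D q.1 = X D q.2
  u : ∀ q ∈ V, ∀ q' ∈ V, q.1.1 = q'.1.1 → X (-D) q.2 = X (-D) q'.2 → q.2 = q'.2
  uk : ∀ k ∈ Sj, ∀ q ∈ V, ∀ q' ∈ V, q.1.1 = q'.1.1 → X (ks k) q.2 = X (ks k) q'.2 → q.2 = q'.2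

/-- the function `A - 2 C` -/
def ph (q : MT × MT) : ℤ := q.1.2.1 - 2 * q.2.2.1

section fib

variable {N : ℕ} {P : Finset ℕ} {c : ℕ → ℤ} {Sj S : Finset ℤ} {E m0 D : ℤ} {ks : ℤ → ℤ}
  {M : Finset MT} {V : Finset (MT × MT)}

theorem D_ne (hp : Par Sj E m0 D ks) : D ≠ 0 := by
  rw [hp.dd]
  have h1 := hp.E1
  have h2 := hp.m1
  positivity

/-- the first marked class determines the pair, given `ph` -/
theorem fib_fst (hC : Cfg N P) (hM : ∀ m ∈ M, IsM N P c S m) (hp : Par Sj E m0 D ks)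
    (hV : Gd c M Sj D ks V) {q q' : MT × MT} (hq : q ∈ V) (hq' : q' ∈ V) (hφ : ph q = ph q')
    (h : q.1 = q'.1) : q = q' := by
  have hD := D_ne hp
  have h1 := hV.dd q hq
  have h2 := hV.dd q' hq'
  have hCc : q.2.2.1 = q'.2.2.1 := by
    unfold ph at hφ
    rw [h] at hφ
    linarith
  have hB : X D q.2 = X D q'.2 := by rw [← h1, ← h2, h]
  have h3 : q.2 = q'.2 := by
    apply IsM.ext2 hC (hM _ (hV.m q hq).2) (hM _ (hV.m q' hq').2) (k := 0) (l := D) hD.symm _ hB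
    unfold X
    rw [zero_mul, zero_mul, add_zero, add_zero, hCc]
  exact Prod.ext h h3

theorem fib_line (hC : Cfg N P) (hM : ∀ m ∈ M, IsM N P c S m) (hp : Par Sj E m0 D ks)
    {m m' : MT} (hm : m ∈ M) (hm' : m' ∈ M) (h : m.2.2 = m'.2.2) : m.1 = m'.1 := by
  apply uniq hC (hM m hm).g (hM m' hm').g (hM m hm).v0 (hM m hm).vN (hM m hm).v
  rw [h]
  exact (hM m' hm').v

/-- (a) -/
theorem fib_a (hC : Cfg N P) (hM : ∀ m ∈ M, IsM N P c S m) (hp : Par Sj E m0 D ks)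
    (hV : Gd c M Sj D ks V) (y : ℤ) :
    (V.filter fun q => ph q = y).card ≤ (M.image (X (-D))).card := by
  have hD := D_ne hp
  apply Finset.card_le_card_of_injOn (fun q => X (-D) q.2)
  · intro q hq
    rw [Finset.mem_coe, Finset.mem_filter] at hq
    exact Finset.mem_image_of_mem _ (hV.m q hq.1).2
  · intro q hq q' hq' e
    rw [Finset.mem_coe, Finset.mem_filter] at hq hq'
    obtain ⟨hq, hy⟩ := hq
    obtain ⟨hq', hy'⟩ := hq'
    simp only at e
    have h1 := hV.dd q hq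
    have h2 := hV.dd q' hq'
    have hφ : ph q = ph q' := by rw [hy, hy']
    have hv : D * (q.1.2.2 - q'.1.2.2) = 0 := by
      unfold ph at hφ
      unfold X at e h1 h2
      linear_combination h1 - h2 - e - hφ
    have hv' : q.1.2.2 = q'.1.2.2 := by
      rcases mul_eq_zero.1 hv with h | h
      · exact absurd h hD
      · exact sub_eq_zero.1 h
    have hg : q.1.1 = q'.1.1 := fib_line hC hM hp (hV.m q hq).1 (hV.m q' hq').1 hv'
    have h3 := hV.u q hq q' hq' hg e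
    have hB : X D q.1 = X D q'.1 := by rw [h1, h2, h3]
    have hA : q.1.2.1 = q'.1.2.1 := by
      unfold X at hB
      rw [hv'] at hB
      linarith
    have h4 : q.1 = q'.1 := IsM.ext hC (hM _ (hV.m q hq).1) (hM _ (hV.m q' hq').1) hA hv'
    exact Prod.ext h4 h3

/-- the relation between the slices and `ph` -/
theorem fib_rel (hp : Par Sj E m0 D ks) {q : MT × MT} (h1 : X D q.1 = X D q.2) {k : ℤ}
    (hk : k ∈ Sj) : (E - k) * ph q = E * X (k * m0) q.1 - (2 * E - k) * X (ks k) q.2 := by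
  have h2 := hp.hk k hk
  have h3 := hp.dd
  unfold X at h1 ⊢
  unfold ph
  rw [h3] at h1 h2
  linear_combination (-k) * h1 + q.2.2.2 * h2

/-- the next family -/
def nx (m0 : ℤ) (q : MT × MT) : MT := (q.1.1, q.1.2.1, m0 * q.1.2.2)

/-- (b) -/
theorem fib_b {β C : ℝ} {e Δ : ℕ} (hβC : ∀ (N : ℕ) (P : Finset ℕ) (c : ℕ → ℤ), Cfg N P →
      (∀ p ∈ P, Δ < p) → ∀ M : Finset MT, (∀ m ∈ M, IsM N P c Sj m) →
    (∀ k ∈ Sj, ∀ m ∈ M, ∀ m' ∈ M, m.1 = m'.1 → X k m = X k m' → m = m') →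
    ∀ L n : ℕ, 1 ≤ L → P.card * M.card ≤ 2 ^ L → (∀ k ∈ Sj, (M.image (X k)).card ≤ n) →
    (M.card : ℝ) ≤ C * (L : ℝ) ^ e * (n : ℝ) ^ β)
    (hC : Cfg N P) (hΔ : ∀ p ∈ P, Δ < p) (hM : ∀ m ∈ M, IsM N P c S m) (hp : Par Sj E m0 D ks)
    (hS : Sl Sj m0 D ks S) (hV : Gd c M Sj D ks V) {L : ℕ} (hL1 : 1 ≤ L)
    (hL : P.card * M.card ≤ 2 ^ L) (y : ℤ) :
    ((V.filter fun q => ph q = y).card : ℝ) ≤ C * (L : ℝ) ^ e *
      ((∑ k ∈ Sj, ((V.filter fun q => ph q = y).image (fun q => X (k * m0) q.1)).card : ℕ) : ℝ) ^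
        β := by
  classical
  have hD := D_ne hp
  have hm1 := hp.m1
  have hE1 := hp.E1
  obtain ⟨Vy, hVy⟩ : ∃ Vy : Finset (MT × MT), Vy = V.filter fun q => ph q = y := ⟨_, rfl⟩
  rw [← hVy]
  have memV : ∀ q, q ∈ Vy ↔ q ∈ V ∧ ph q = y := by
    intro q
    rw [hVy, Finset.mem_filter]
  have hφ : ∀ q ∈ Vy, ∀ q' ∈ Vy, ph q = ph q' := by
    intro q hq q' hq'
    rw [((memV q).1 hq).2, ((memV q').1 hq').2]
  have fstinj : ∀ q ∈ Vy, ∀ q' ∈ Vy, q.1.2.1 = q'.1.2.1 → q.1.2.2 = q'.1.2.2 → q = q' := by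
    intro q hq q' hq' h1 h2
    have a1 := ((memV q).1 hq).1
    have a2 := ((memV q').1 hq').1
    exact fib_fst hC hM hp hV a1 a2 (hφ q hq q' hq')
      (IsM.ext hC (hM _ (hV.m q a1).1) (hM _ (hV.m q' a2).1) h1 h2)
  have hcard : (Vy.image (nx m0)).card = Vy.card := by
    apply Finset.card_image_of_injOn
    intro q hq q' hq' e
    unfold nx at e
    simp only [Prod.mk.injEq] at e
    obtain ⟨-, e2, e3⟩ := e
    exact fstinj q hq q' hq' e2 (mul_left_cancel₀ (by omega) e3)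
  have hVM : Vy.card ≤ M.card := by
    apply Finset.card_le_card_of_injOn (fun q => q.1)
    · intro q hq
      exact (hV.m q ((memV q).1 hq).1).1
    · intro q hq q' hq' e
      simp only at e
      exact fstinj q hq q' hq' (by rw [e]) (by rw [e])
  have h1 := hβC N P c hC hΔ (Vy.image (nx m0)) ?_ ?_ L
    (∑ k ∈ Sj, (Vy.image (fun q => X (k * m0) q.1)).card) hL1 ?_ ?_
  · rw [hcard] at h1
    exact h1
  · intro m hm
    obtain ⟨q, hq, rfl⟩ := Finset.mem_image.1 hm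
    have a1 := hM _ (hV.m q ((memV q).1 hq).1).1
    refine ⟨a1.g, a1.a, Dvd.dvd.mul_left a1.v _, mul_ne_zero (by omega) a1.v0, ?_, ?_⟩
    · have b1 := a1.sl 0 hS.z
      have b2 := a1.sl D hS.dd
      have b3 := absIcc b2 b1
      have b4 : X D q.1 - X 0 q.1 = D * q.1.2.2 := by unfold X; ring
      rw [b4, hp.dd, abs_mul, abs_of_pos (by positivity : 0 < m0 * E)] at b3
      show |m0 * q.1.2.2| ≤ N
      rw [abs_mul, abs_of_pos (by positivity : 0 < m0)]
      have b5 : m0 * |q.1.2.2| ≤ m0 * E * |q.1.2.2| := by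
        apply mul_le_mul_of_nonneg_right _ (abs_nonneg _)
        nlinarith
      linarith
    · intro k hk
      have b1 := a1.sl (k * m0) (hS.km k hk)
      have b2 : X k (nx m0 q) = X (k * m0) q.1 := by unfold X nx; ring
      rw [b2]
      exact b1
  · intro k hk m hm m' hm' hg hX
    obtain ⟨q, hq, rfl⟩ := Finset.mem_image.1 hm
    obtain ⟨q', hq', rfl⟩ := Finset.mem_image.1 hm'
    have a1 := ((memV q).1 hq).1
    have a2 := ((memV q').1 hq').1
    have b2 : ∀ q, X k (nx m0 q) = X (k * m0) q.1 := by intro q; unfold X nx; ring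
    rw [b2, b2] at hX
    have hg' : q.1.1 = q'.1.1 := hg
    have r1 := fib_rel hp (hV.dd q a1) hk
    have r2 := fib_rel hp (hV.dd q' a2) hk
    have hkE := hp.kE k hk
    have hY : X (ks k) q.2 = X (ks k) q'.2 := by
      rw [hφ q hq q' hq', hX] at r1
      have h3 : (2 * E - k) * (X (ks k) q.2 - X (ks k) q'.2) = 0 := by
        linear_combination r1 - r2
      rcases mul_eq_zero.1 h3 with h4 | h4
      · omega
      · exact sub_eq_zero.1 h4
    have h3 := hV.uk k hk q a1 q' a2 hg' hY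
    have hB : X D q.1 = X D q'.1 := by rw [hV.dd q a1, hV.dd q' a2, h3]
    have hkD : k * m0 ≠ D := by
      rw [hp.dd]
      intro h
      have : m0 * (E - k) = 0 := by linear_combination -h
      rcases mul_eq_zero.1 this with h4 | h4 <;> omega
    have h4 : q.1 = q'.1 := IsM.ext2 hC (hM _ (hV.m q a1).1) (hM _ (hV.m q' a2).1) hkD hX hB
    rw [fib_fst hC hM hp hV a1 a2 (hφ q hq q' hq') h4]
  · rw [hcard]
    exact (Nat.mul_le_mul_left _ hVM).trans hL
  · intro k hk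
    have b2 : (Vy.image (nx m0)).image (X k) = Vy.image (fun q => X (k * m0) q.1) := by
      rw [Finset.image_image]
      apply Finset.image_congr
      intro q _
      show X k (nx m0 q) = X (k * m0) q.1
      unfold X nx
      ring
    rw [b2]
    exact Finset.single_le_sum (f := fun k => (Vy.image (fun q => X (k * m0) q.1)).card)
      (fun _ _ => Nat.zero_le _) hk

/-- (c) -/
theorem fib_c (hp : Par Sj E m0 D ks) (hS : Sl Sj m0 D ks S) (hV : Gd c M Sj D ks V) {n : ℕ}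
    (hn : ∀ k ∈ S, (M.image (X k)).card ≤ n) {k : ℤ} (hk : k ∈ Sj) :
    ∑ y ∈ V.image ph, ((V.filter fun q => ph q = y).image (fun q => X (k * m0) q.1)).card ≤
      n ^ 2 := by
  classical
  have hkE := hp.kE k hk
  refine (sum_fibre V ph (fun q => X (k * m0) q.1)).trans ?_
  have h1 : (V.image fun q => (X (k * m0) q.1, ph q)).card ≤
      (V.image fun q => (X (k * m0) q.1, X (ks k) q.2)).card := by
    apply card_image_factor
    intro q hq q' hq' e
    simp only [Prod.mk.injEq] at e ⊢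
    refine ⟨e.1, ?_⟩
    have r1 := fib_rel hp (hV.dd q hq) hk
    have r2 := fib_rel hp (hV.dd q' hq') hk
    rw [e.1, e.2] at r1
    have h3 : (E - k) * (ph q - ph q') = 0 := by linear_combination r1 - r2
    rcases mul_eq_zero.1 h3 with h4 | h4
    · omega
    · exact sub_eq_zero.1 h4
  refine h1.trans ?_
  have h2 : (V.image fun q => (X (k * m0) q.1, X (ks k) q.2)) ⊆
      (M.image (X (k * m0))) ×ˢ (M.image (X (ks k))) := by
    intro p hp'
    obtain ⟨q, hq, rfl⟩ := Finset.mem_image.1 hp'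
    rw [Finset.mem_product]
    exact ⟨Finset.mem_image_of_mem _ (hV.m q hq).1, Finset.mem_image_of_mem _ (hV.m q hq).2⟩
  refine (Finset.card_le_card h2).trans ?_
  rw [Finset.card_product, sq]
  exact Nat.mul_le_mul (hn _ (hS.km k hk)) (hn _ (hS.kk k hk))

/-- the number of good pairs -/
theorem fib_total {β C : ℝ} {e Δ : ℕ} (hβ : 1 ≤ β) (hC1 : 1 ≤ C)
    (hβC : ∀ (N : ℕ) (P : Finset ℕ) (c : ℕ → ℤ), Cfg N P →
      (∀ p ∈ P, Δ < p) → ∀ M : Finset MT, (∀ m ∈ M, IsM N P c Sj m) →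
    (∀ k ∈ Sj, ∀ m ∈ M, ∀ m' ∈ M, m.1 = m'.1 → X k m = X k m' → m = m') →
    ∀ L n : ℕ, 1 ≤ L → P.card * M.card ≤ 2 ^ L → (∀ k ∈ Sj, (M.image (X k)).card ≤ n) →
    (M.card : ℝ) ≤ C * (L : ℝ) ^ e * (n : ℝ) ^ β)
    (hC : Cfg N P) (hΔ : ∀ p ∈ P, Δ < p) (hM : ∀ m ∈ M, IsM N P c S m) (hp : Par Sj E m0 D ks)
    (hS : Sl Sj m0 D ks S) (hV : Gd c M Sj D ks V) {L : ℕ} (hL1 : 1 ≤ L)
    (hL : P.card * M.card ≤ 2 ^ L) {n : ℕ} (hn1 : 1 ≤ n)
    (hn : ∀ k ∈ S, (M.image (X k)).card ≤ n) :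
    (V.card : ℝ) ≤ C * (L : ℝ) ^ e * Sj.card * (n : ℝ) ^ (3 - 1 / β) := by
  classical
  have hβ0 : 0 < β := by linarith
  have hn0 : (0 : ℝ) < n := by exact_mod_cast hn1
  have hL0 : (1 : ℝ) ≤ L := by exact_mod_cast hL1
  have hK1 : 1 ≤ C * (L : ℝ) ^ e := by
    have : (1 : ℝ) ≤ (L : ℝ) ^ e := one_le_pow₀ hL0
    nlinarith
  have hi : 0 ≤ 1 - 1 / β := by
    rw [sub_nonneg, div_le_one hβ0]
    exact hβ
  -- one fibre
  have hy : ∀ y : ℤ, ((V.filter fun q => ph q = y).card : ℝ) ≤ (n : ℝ) ^ (1 - 1 / β) *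
      (C * (L : ℝ) ^ e * ((∑ k ∈ Sj, ((V.filter fun q => ph q = y).image
        (fun q => X (k * m0) q.1)).card : ℕ) : ℝ)) := by
    intro y
    have ha := fib_a hC hM hp hV y
    have hb := fib_b hβC hC hΔ hM hp hS hV hL1 hL y
    obtain ⟨a, haa⟩ : ∃ a : ℝ, a = ((V.filter fun q => ph q = y).card : ℝ) := ⟨_, rfl⟩
    obtain ⟨s, hs⟩ : ∃ s : ℝ, s = ((∑ k ∈ Sj, ((V.filter fun q => ph q = y).image
        (fun q => X (k * m0) q.1)).card : ℕ) : ℝ) := ⟨_, rfl⟩
    rw [← haa, ← hs] at hb ⊢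
    have ha0 : 0 ≤ a := by rw [haa]; positivity
    have hs0 : 0 ≤ s := by rw [hs]; positivity
    have han : a ≤ n := by
      rw [haa]
      exact_mod_cast ha.trans (hn _ hS.nd)
    rcases eq_or_lt_of_le ha0 with h0 | h0
    · rw [← h0]
      positivity
    · have h1 : a = a ^ (1 - 1 / β) * a ^ (1 / β) := by
        rw [← Real.rpow_add h0]
        simp
      have h2 : a ^ (1 - 1 / β) ≤ (n : ℝ) ^ (1 - 1 / β) := Real.rpow_le_rpow ha0 han hi
      have h3 : a ^ (1 / β) ≤ C * (L : ℝ) ^ e * s := by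
        calc a ^ (1 / β) ≤ (C * (L : ℝ) ^ e * s ^ β) ^ (1 / β) :=
              Real.rpow_le_rpow ha0 hb (by positivity)
          _ = (C * (L : ℝ) ^ e) ^ (1 / β) * s := by
              rw [Real.mul_rpow (by positivity) (by positivity), ← Real.rpow_mul hs0]
              have : β * (1 / β) = 1 := by field_simp
              rw [this, Real.rpow_one]
          _ ≤ C * (L : ℝ) ^ e * s := by
              apply mul_le_mul_of_nonneg_right _ hs0
              calc (C * (L : ℝ) ^ e) ^ (1 / β) ≤ (C * (L : ℝ) ^ e) ^ (1 : ℝ) := by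
                    apply Real.rpow_le_rpow_of_exponent_le hK1
                    rw [div_le_one hβ0]
                    exact hβ
                _ = _ := Real.rpow_one _
      calc a = a ^ (1 - 1 / β) * a ^ (1 / β) := h1
        _ ≤ (n : ℝ) ^ (1 - 1 / β) * (C * (L : ℝ) ^ e * s) :=
            mul_le_mul h2 h3 (by positivity) (by positivity)
  have hsum : (V.card : ℝ) = ∑ y ∈ V.image ph, ((V.filter fun q => ph q = y).card : ℝ) := by
    rw [Finset.card_eq_sum_card_fiberwise (f := ph) (t := V.image ph)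
      (fun q hq => Finset.mem_image_of_mem _ hq)]
    push_cast
    rfl
  have hc : ∑ y ∈ V.image ph, ((∑ k ∈ Sj, ((V.filter fun q => ph q = y).image
      (fun q => X (k * m0) q.1)).card : ℕ) : ℝ) ≤ Sj.card * (n : ℝ) ^ 2 := by
    have h1 : ∑ y ∈ V.image ph, ∑ k ∈ Sj, ((V.filter fun q => ph q = y).image
        (fun q => X (k * m0) q.1)).card ≤ Sj.card * n ^ 2 := by
      rw [Finset.sum_comm]
      calc ∑ k ∈ Sj, ∑ y ∈ V.image ph, ((V.filter fun q => ph q = y).image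
            (fun q => X (k * m0) q.1)).card ≤ ∑ k ∈ Sj, n ^ 2 :=
            Finset.sum_le_sum fun k hk => fib_c hp hS hV hn hk
        _ = Sj.card * n ^ 2 := by rw [Finset.sum_const, smul_eq_mul]
    exact_mod_cast h1
  rw [hsum]
  calc ∑ y ∈ V.image ph, ((V.filter fun q => ph q = y).card : ℝ)
      ≤ ∑ y ∈ V.image ph, (n : ℝ) ^ (1 - 1 / β) * (C * (L : ℝ) ^ e *
        ((∑ k ∈ Sj, ((V.filter fun q => ph q = y).image
          (fun q => X (k * m0) q.1)).card : ℕ) : ℝ)) := Finset.sum_le_sum fun y _ => hy y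
    _ = (n : ℝ) ^ (1 - 1 / β) * (C * (L : ℝ) ^ e * ∑ y ∈ V.image ph,
        ((∑ k ∈ Sj, ((V.filter fun q => ph q = y).image
          (fun q => X (k * m0) q.1)).card : ℕ) : ℝ)) := by
        rw [Finset.mul_sum, Finset.mul_sum]
    _ ≤ (n : ℝ) ^ (1 - 1 / β) * (C * (L : ℝ) ^ e * (Sj.card * (n : ℝ) ^ 2)) := by
        gcongr
    _ = C * (L : ℝ) ^ e * Sj.card * ((n : ℝ) ^ (1 - 1 / β) * (n : ℝ) ^ 2) := by ring
    _ = C * (L : ℝ) ^ e * Sj.card * (n : ℝ) ^ (3 - 1 / β) := by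
        congr 1
        rw [← Real.rpow_natCast, ← Real.rpow_add hn0]
        congr 1
        push_cast
        ring

end fib

end Pool.Agent.FC
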