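import Pool.Agent.helper74.FC.Top
import Pool.Agent.helper79.Parked.SlicesBound

/-!
# Marked residue classes (MP_bb5cc8_nt): the exponent
-/

set_option autoImplicit false

namespace Pool.Agent.FC

open Finset

/-- the integers of the problem -/
def US (α : ℝ) (N : ℕ) (a : (p : ℕ) → ZMod p) : Set ℕ :=
  {n : ℕ | 1 ≤ n ∧ n ≤ N ∧ ∃ p : ℕ, p.Prime ∧ (N : ℝ) ^ α ≤ p ∧ (p : ℝ) < 2 * (N : ℝ) ^ α ∧
    (n : ZMod p) = a p}

theorem US_fin (α : ℝ) (N : ℕ) (a : (p : ℕ) → ZMod p) : (US α N a).Finite :=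
  (Set.finite_Icc 1 N).subset fun _ hn => ⟨hn.1, hn.2.1⟩

theorem EE_le (α : ℝ) (N : ℕ) (a : (p : ℕ) → ZMod p) (Q : Finset ℕ)
    (hQ : ∀ p ∈ Q, p.Prime ∧ (N : ℝ) ^ α ≤ (p : ℝ) ∧ (p : ℝ) < 2 * (N : ℝ) ^ α) :
    (EE N Q fun p => ((a p).val : ℤ)).card ≤ (US α N a).ncard := by
  classical
  have h1 : (((EE N Q fun p => ((a p).val : ℤ)).image Int.toNat)).card =
      (EE N Q fun p => ((a p).val : ℤ)).card := by
    apply Finset.card_image_of_injOn
    intro x hx y hy e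
    rw [Finset.mem_coe, mem_EE, Finset.mem_Icc] at hx hy
    have h2 := Int.toNat_of_nonneg (by omega : 0 ≤ x)
    have h3 := Int.toNat_of_nonneg (by omega : 0 ≤ y)
    rw [← h2, ← h3, e]
  rw [← h1, ← Set.ncard_coe_finset]
  apply Set.ncard_le_ncard _ (US_fin α N a)
  intro n hn
  rw [Finset.mem_coe, Finset.mem_image] at hn
  obtain ⟨x, hx, rfl⟩ := hn
  rw [mem_EE, Finset.mem_Icc] at hx
  obtain ⟨⟨hx1, hx2⟩, p, hp, hpx⟩ := hx
  obtain ⟨hp1, hp2, hp3⟩ := hQ p hp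
  haveI : NeZero p := ⟨hp1.ne_zero⟩
  refine ⟨by omega, by omega, p, hp1, hp2, hp3, ?_⟩
  have h2 : ((x.toNat : ℕ) : ZMod p) = ((x : ℤ) : ZMod p) := by
    have := Int.toNat_of_nonneg (by omega : 0 ≤ x)
    calc ((x.toNat : ℕ) : ZMod p) = (((x.toNat : ℕ) : ℤ) : ZMod p) := by push_cast; rfl
      _ = ((x : ℤ) : ZMod p) := by rw [this]
  rw [h2]
  have h3 : ((((a p).val : ℤ)) : ZMod p) = ((x : ℤ) : ZMod p) :=
    (ZMod.intCast_eq_intCast_iff_dvd_sub _ _ _).2 hpx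
  rw [← h3]
  push_cast
  exact ZMod.natCast_zmod_val (a p)

/-- the exponent -/
theorem final {b : ℝ} (hb : 3 / 2 ≤ b)
    (h : ∀ δ : ℝ, 0 < δ → ∃ κ : ℝ, 3 ≤ κ ∧ κ ≤ 2 * b + δ ∧ TB κ)
    (α : ℝ) (hα : 1 / 2 < α) (hα1 : α < 1) (ε : ℝ) (hε : 0 < ε) :
    ∃ N₀ : ℕ, ∀ N : ℕ, N₀ ≤ N → ∀ a : (p : ℕ) → ZMod p,
      (N : ℝ) ^ (min ((2 - α) / b) (1 - α / 3) - ε) ≤ ((US α N a).ncard : ℝ) := by
  classical
  obtain ⟨κ, hκ3, hκ, hTB⟩ := h (ε / 4) (by linarith)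
  obtain ⟨N₁, hN₁⟩ := top hTB α hα hα1 (ε / 4) (by linarith)
  have ev1 := Pool.Agent.helper79.Parked.SlicesBound.card_primesNear_ge
    (by linarith : 0 < α) hα1
  have ev2 : ∀ᶠ N : ℕ in Filter.atTop, 16 * Real.log (N : ℝ) ≤ (N : ℝ) ^ (ε / 8) := by
    have h := (isLittleO_log_rpow_atTop (r := ε / 8) (by positivity)).bound
      (show (0 : ℝ) < 1 / 16 by norm_num)
    have h' := tendsto_natCast_atTop_atTop.eventually h
    filter_upwards [h', Filter.eventually_ge_atTop 1] with N hN hN1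
    have hN1' : (1 : ℝ) ≤ N := by exact_mod_cast hN1
    rw [Real.norm_of_nonneg (Real.log_nonneg hN1'),
      Real.norm_of_nonneg (Real.rpow_nonneg (by linarith) _)] at hN
    linarith
  have ev3 : ∀ᶠ N : ℕ in Filter.atTop, (2 : ℝ) ≤ (N : ℝ) ^ (ε / 4) :=
    ((tendsto_rpow_atTop (by linarith : 0 < ε / 4)).comp
      tendsto_natCast_atTop_atTop).eventually_ge_atTop _
  obtain ⟨N₂, hN₂⟩ := Filter.eventually_atTop.mp
    (ev1.and (ev2.and (ev3.and (Filter.eventually_ge_atTop 3))))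
  refine ⟨max N₁ N₂, ?_⟩
  intro N hN a
  obtain ⟨e1, e2, e3, hN3⟩ := hN₂ N ((le_max_right _ _).trans hN)
  have hNR3 : (3 : ℝ) ≤ N := by exact_mod_cast hN3
  have hN0 : (0 : ℝ) < N := by linarith
  have hN1 : (1 : ℝ) ≤ N := by linarith
  have hlog : 0 < Real.log N := Real.log_pos (by linarith)
  obtain ⟨Q, hQd⟩ : ∃ Q : Finset ℕ, Q = Pool.Agent.helper79.Parked.SlicesBound.primesNear α N :=
    ⟨_, rfl⟩
  have hQ : ∀ p ∈ Q, p.Prime ∧ (N : ℝ) ^ α ≤ (p : ℝ) ∧ (p : ℝ) < 2 * (N : ℝ) ^ α := by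
    intro p hp
    rw [hQd] at hp
    exact Pool.Agent.helper79.Parked.SlicesBound.mem_primesNear.1 hp
  rw [← hQd] at e1
  have main := hN₁ N ((le_max_left _ _).trans hN) Q (fun p => ((a p).val : ℤ)) hQ (by
    intro p hp
    haveI : NeZero p := ⟨(hQ p hp).1.ne_zero⟩
    refine ⟨by positivity, ?_⟩
    have := ZMod.val_lt (a p)
    exact_mod_cast this)
  have hEE := EE_le α N a Q hQ
  have hEEN : (EE N Q fun p => ((a p).val : ℤ)).card ≤ N := by
    have h1 : (EE N Q fun p => ((a p).val : ℤ)) ⊆ Icc (1 : ℤ) N := by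
      intro x hx
      exact (mem_EE.1 hx).1
    have h2 := Finset.card_le_card h1
    rw [Int.card_Icc] at h2
    omega
  obtain ⟨n, hn⟩ : ∃ n : ℕ, n = (EE N Q fun p => ((a p).val : ℤ)).card := ⟨_, rfl⟩
  rw [← hn] at main hEE hEEN
  refine le_trans ?_ (by exact_mod_cast hEE : (n : ℝ) ≤ ((US α N a).ncard : ℝ))
  have hnN : (n : ℝ) ≤ N := by exact_mod_cast hEEN
  -- lower bound
  have hQlow : (N : ℝ) ^ (α - ε / 8) ≤ Q.card := by
    refine le_trans ?_ e1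
    rw [le_div_iff₀ (by positivity)]
    calc (N : ℝ) ^ (α - ε / 8) * (16 * Real.log N) ≤ (N : ℝ) ^ (α - ε / 8) * (N : ℝ) ^ (ε / 8) :=
          mul_le_mul_of_nonneg_left e2 (by positivity)
      _ = (N : ℝ) ^ α := by
          rw [← Real.rpow_add hN0]
          congr 1
          ring
  have hlow : (N : ℝ) ^ (4 - 2 * α - ε / 4) ≤ (Q.card * (N : ℝ) ^ (2 - 2 * α)) ^ 2 := by
    calc (N : ℝ) ^ (4 - 2 * α - ε / 4) = ((N : ℝ) ^ (α - ε / 8) * (N : ℝ) ^ (2 - 2 * α)) ^ 2 := by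
          rw [← Real.rpow_add hN0, ← Real.rpow_natCast, ← Real.rpow_mul hN0.le]
          congr 1
          push_cast
          ring
      _ ≤ _ := by
          apply pow_le_pow_left₀ (by positivity)
          exact mul_le_mul_of_nonneg_right hQlow (by positivity)
  have hmain : (N : ℝ) ^ (4 - 2 * α - ε / 4) ≤ (N : ℝ) ^ (ε / 4) *
      ((n : ℝ) ^ κ + (N : ℝ) ^ (1 - α) * (n : ℝ) ^ 3) := hlow.trans main
  have hn1 : 1 ≤ n := by
    by_contra hne
    have h0 : n = 0 := by omega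
    rw [h0, Nat.cast_zero, Real.zero_rpow (by linarith)] at hmain
    have : 0 < (N : ℝ) ^ (4 - 2 * α - ε / 4) := Real.rpow_pos_of_pos hN0 _
    simp at hmain
    linarith
  have hnR1 : (1 : ℝ) ≤ n := by exact_mod_cast hn1
  have hn0 : (0 : ℝ) < n := by linarith
  rcases le_total ((n : ℝ) ^ κ) ((N : ℝ) ^ (1 - α) * (n : ℝ) ^ 3) with hc | hc
  · -- second term
    have h1 : (N : ℝ) ^ (4 - 2 * α - ε / 4) ≤
        (N : ℝ) ^ (1 - α + ε / 2) * (n : ℝ) ^ 3 := by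
      calc (N : ℝ) ^ (4 - 2 * α - ε / 4) ≤ (N : ℝ) ^ (ε / 4) *
          ((n : ℝ) ^ κ + (N : ℝ) ^ (1 - α) * (n : ℝ) ^ 3) := hmain
        _ ≤ (N : ℝ) ^ (ε / 4) * (2 * ((N : ℝ) ^ (1 - α) * (n : ℝ) ^ 3)) := by
            apply mul_le_mul_of_nonneg_left _ (by positivity)
            linarith
        _ = 2 * ((N : ℝ) ^ (ε / 4) * ((N : ℝ) ^ (1 - α) * (n : ℝ) ^ 3)) := by ring
        _ ≤ (N : ℝ) ^ (ε / 4) * ((N : ℝ) ^ (ε / 4) * ((N : ℝ) ^ (1 - α) * (n : ℝ) ^ 3)) :=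
            mul_le_mul_of_nonneg_right e3 (by positivity)
        _ = ((N : ℝ) ^ (ε / 4) * (N : ℝ) ^ (ε / 4) * (N : ℝ) ^ (1 - α)) * (n : ℝ) ^ 3 := by ring
        _ = (N : ℝ) ^ (1 - α + ε / 2) * (n : ℝ) ^ 3 := by
            rw [← Real.rpow_add hN0, ← Real.rpow_add hN0]
            congr 2
            ring
    have h2 : (N : ℝ) ^ (3 - α - 3 * ε / 4) ≤ (n : ℝ) ^ 3 := by
      have h3 : (N : ℝ) ^ (4 - 2 * α - ε / 4) =
          (N : ℝ) ^ (1 - α + ε / 2) * (N : ℝ) ^ (3 - α - 3 * ε / 4) := by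
        rw [← Real.rpow_add hN0]
        congr 1
        ring
      rw [h3] at h1
      exact le_of_mul_le_mul_left h1 (by positivity)
    have h4 : ((N : ℝ) ^ (1 - α / 3 - ε / 4)) ^ 3 ≤ (n : ℝ) ^ 3 := by
      rw [← Real.rpow_natCast, ← Real.rpow_mul hN0.le]
      have : (1 - α / 3 - ε / 4) * ((3 : ℕ) : ℝ) = 3 - α - 3 * ε / 4 := by
        push_cast
        ring
      rw [this]
      exact h2
    have h5 : (N : ℝ) ^ (1 - α / 3 - ε / 4) ≤ n :=
      (pow_le_pow_iff_left₀ (by positivity) (by positivity) (by norm_num)).1 h4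
    refine le_trans ?_ h5
    apply Real.rpow_le_rpow_of_exponent_le hN1
    have := min_le_right ((2 - α) / b) (1 - α / 3)
    linarith
  · -- first term
    have h1 : (N : ℝ) ^ (4 - 2 * α - ε / 4) ≤ (N : ℝ) ^ (ε / 2) * (n : ℝ) ^ κ := by
      calc (N : ℝ) ^ (4 - 2 * α - ε / 4) ≤ (N : ℝ) ^ (ε / 4) *
          ((n : ℝ) ^ κ + (N : ℝ) ^ (1 - α) * (n : ℝ) ^ 3) := hmain
        _ ≤ (N : ℝ) ^ (ε / 4) * (2 * (n : ℝ) ^ κ) := by
            apply mul_le_mul_of_nonneg_left _ (by positivity)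
            linarith
        _ = 2 * ((N : ℝ) ^ (ε / 4) * (n : ℝ) ^ κ) := by ring
        _ ≤ (N : ℝ) ^ (ε / 4) * ((N : ℝ) ^ (ε / 4) * (n : ℝ) ^ κ) :=
            mul_le_mul_of_nonneg_right e3 (by positivity)
        _ = (N : ℝ) ^ (ε / 2) * (n : ℝ) ^ κ := by
            rw [← mul_assoc, ← Real.rpow_add hN0]
            congr 2
            ring
    have h2 : (n : ℝ) ^ κ ≤ (n : ℝ) ^ (2 * b) * (N : ℝ) ^ (ε / 4) := by
      calc (n : ℝ) ^ κ ≤ (n : ℝ) ^ (2 * b + ε / 4) := Real.rpow_le_rpow_of_exponent_le hnR1 hκ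
        _ = (n : ℝ) ^ (2 * b) * (n : ℝ) ^ (ε / 4) := Real.rpow_add hn0 _ _
        _ ≤ (n : ℝ) ^ (2 * b) * (N : ℝ) ^ (ε / 4) := by
            apply mul_le_mul_of_nonneg_left _ (by positivity)
            exact Real.rpow_le_rpow hn0.le hnN (by linarith)
    have h3 : (N : ℝ) ^ (4 - 2 * α - ε) ≤ (n : ℝ) ^ (2 * b) := by
      have h4 : (N : ℝ) ^ (3 * ε / 4) * (N : ℝ) ^ (4 - 2 * α - ε) ≤
          (N : ℝ) ^ (3 * ε / 4) * (n : ℝ) ^ (2 * b) := by
        calc (N : ℝ) ^ (3 * ε / 4) * (N : ℝ) ^ (4 - 2 * α - ε) = (N : ℝ) ^ (4 - 2 * α - ε / 4) := by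
              rw [← Real.rpow_add hN0]
              congr 1
              ring
          _ ≤ (N : ℝ) ^ (ε / 2) * (n : ℝ) ^ κ := h1
          _ ≤ (N : ℝ) ^ (ε / 2) * ((n : ℝ) ^ (2 * b) * (N : ℝ) ^ (ε / 4)) :=
              mul_le_mul_of_nonneg_left h2 (by positivity)
          _ = ((N : ℝ) ^ (ε / 2) * (N : ℝ) ^ (ε / 4)) * (n : ℝ) ^ (2 * b) := by ring
          _ = (N : ℝ) ^ (3 * ε / 4) * (n : ℝ) ^ (2 * b) := by
              rw [← Real.rpow_add hN0]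
              congr 2
              ring
      exact le_of_mul_le_mul_left h4 (by positivity)
    have hb0 : 0 < b := by linarith
    have h4 : (N : ℝ) ^ ((2 - α) / b - ε / (2 * b)) ≤ n := by
      have h5 : ((N : ℝ) ^ (4 - 2 * α - ε)) ^ (1 / (2 * b)) ≤ ((n : ℝ) ^ (2 * b)) ^ (1 / (2 * b)) :=
        Real.rpow_le_rpow (by positivity) h3 (by positivity)
      rw [← Real.rpow_mul hN0.le, ← Real.rpow_mul hn0.le] at h5
      have e5 : 2 * b * (1 / (2 * b)) = 1 := by field_simp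
      have e6 : (4 - 2 * α - ε) * (1 / (2 * b)) = (2 - α) / b - ε / (2 * b) := by
        field_simp
        ring
      rw [e5, e6, Real.rpow_one] at h5
      exact h5
    refine le_trans ?_ h4
    apply Real.rpow_le_rpow_of_exponent_le hN1
    have h6 := min_le_left ((2 - α) / b) (1 - α / 3)
    have h7 : ε / (2 * b) ≤ ε := by
      rw [div_le_iff₀ (by positivity)]
      nlinarith
    linarith

/-! ## The iteration -/

theorem LV_seq (j : ℕ) : ∃ β : ℝ, 1 ≤ β ∧ 1 + Real.sqrt 2 / 2 ≤ β ∧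
    β ≤ 1 + Real.sqrt 2 / 2 + (1 / 2) ^ j ∧ LV β := by
  have hs := Real.sqrt_nonneg 2
  have hs2 : Real.sqrt 2 * Real.sqrt 2 = 2 := Real.mul_self_sqrt (by norm_num)
  have hs1 : Real.sqrt 2 ≤ 3 / 2 := by
    rw [Real.sqrt_le_left (by norm_num)]
    norm_num
  induction j with
  | zero => exact ⟨2, by norm_num, by linarith, by rw [pow_zero]; linarith, LV_two⟩
  | succ j ih =>
    obtain ⟨β, h1, h2, h3, h4⟩ := ih
    have hβ0 : 0 < β := by linarith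
    have e : 2 - 1 / (2 * β) - (1 + Real.sqrt 2 / 2) =
        (β - (1 + Real.sqrt 2 / 2)) * (1 - Real.sqrt 2 / 2) / β := by
      field_simp
      nlinarith
    have hq0 : 0 ≤ 1 - Real.sqrt 2 / 2 := by linarith
    have hge : 1 + Real.sqrt 2 / 2 ≤ 2 - 1 / (2 * β) := by
      have : 0 ≤ (β - (1 + Real.sqrt 2 / 2)) * (1 - Real.sqrt 2 / 2) / β :=
        div_nonneg (mul_nonneg (by linarith) hq0) hβ0.le
      linarith
    refine ⟨2 - 1 / (2 * β), by linarith, hge, ?_, LV_step h1 h4⟩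
    have h5 : (β - (1 + Real.sqrt 2 / 2)) * (1 - Real.sqrt 2 / 2) / β ≤ (1 / 2) ^ (j + 1) := by
      rw [div_le_iff₀ hβ0]
      have h6 : (0 : ℝ) < (1 / 2) ^ j := by positivity
      have h7 : (β - (1 + Real.sqrt 2 / 2)) * (1 - Real.sqrt 2 / 2) ≤ (1 / 2) ^ j * (1 / 2) := by
        apply mul_le_mul (by linarith) _ hq0 h6.le
        have : 1 ≤ Real.sqrt 2 := by
          rw [Real.one_le_sqrt]
          norm_num
        linarith
      rw [pow_succ]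
      nlinarith
    linarith

/-- the lower bound for the union of the classes -/
theorem fourCycles (α : ℝ) (hα : 1 / 2 < α) (hα1 : α < 1) (ε : ℝ) (hε : 0 < ε) :
    ∃ N₀ : ℕ, ∀ N : ℕ, N₀ ≤ N → ∀ a : (p : ℕ) → ZMod p,
      (N : ℝ) ^ (min ((2 - Real.sqrt 2) * (2 - α)) (1 - α / 3) - ε) ≤ ((US α N a).ncard : ℝ) := by
  have hs := Real.sqrt_nonneg 2
  have hs2 : Real.sqrt 2 * Real.sqrt 2 = 2 := Real.mul_self_sqrt (by norm_num)
  have hs1 : 1 ≤ Real.sqrt 2 := by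
    rw [Real.one_le_sqrt]
    norm_num
  have hfin := final (b := 1 + Real.sqrt 2 / 2) (by linarith) (by
    intro δ hδ
    obtain ⟨j, hj⟩ := exists_pow_lt_of_lt_one hδ (by norm_num : (1 : ℝ) / 2 < 1)
    obtain ⟨β, h1, h2, h3, h4⟩ := LV_seq j
    refine ⟨4 - 1 / β, ?_, ?_, TB_of_LV h1 h4⟩
    · have : 1 / β ≤ 1 := by
        rw [div_le_one (by linarith)]
        exact h1
      linarith
    · have hb0 : 0 < 1 + Real.sqrt 2 / 2 := by linarith
      have hβ0 : 0 < β := by linarith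
      have e1 : 1 / (1 + Real.sqrt 2 / 2) = 2 - Real.sqrt 2 := by
        rw [div_eq_iff hb0.ne']
        nlinarith
      have e2 : 1 / (1 + Real.sqrt 2 / 2) - 1 / β ≤ β - (1 + Real.sqrt 2 / 2) := by
        rw [div_sub_div _ _ hb0.ne' hβ0.ne', div_le_iff₀ (by positivity)]
        have h5 : 0 ≤ β - (1 + Real.sqrt 2 / 2) := by linarith
        have h6 : 1 ≤ (1 + Real.sqrt 2 / 2) * β := by nlinarith
        nlinarith
      linarith) α hα hα1 ε hε
  have e1 : (2 - α) / (1 + Real.sqrt 2 / 2) = (2 - Real.sqrt 2) * (2 - α) := by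
    rw [div_eq_iff (by positivity)]
    nlinarith
  rw [e1] at hfin
  exact hfin

end Pool.Agent.FC
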