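import Pool.Agent.helper74.FC.Tri

/-!
# Marked residue classes (MP_bb5cc8_nt): one step of the iteration
-/

set_option autoImplicit false

namespace Pool.Agent.FC

open Finset

/-- the bound with exponent `β` for thin families -/
def LV (β : ℝ) : Prop := ∃ (S : Finset ℤ) (C : ℝ) (e Δ : ℕ), 1 ≤ C ∧
  ∀ (N : ℕ) (P : Finset ℕ) (c : ℕ → ℤ), Cfg N P → (∀ p ∈ P, Δ < p) → ∀ M : Finset MT,
    (∀ m ∈ M, IsM N P c S m) →
    (∀ k ∈ S, ∀ m ∈ M, ∀ m' ∈ M, m.1 = m'.1 → X k m = X k m' → m = m') →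
    ∀ L n : ℕ, 1 ≤ L → P.card * M.card ≤ 2 ^ L → (∀ k ∈ S, (M.image (X k)).card ≤ n) →
    (M.card : ℝ) ≤ C * (L : ℝ) ^ e * (n : ℝ) ^ β

theorem LV_two : LV 2 := by
  classical
  refine ⟨{0, 1}, 1, 0, 0, le_rfl, ?_⟩
  intro N P c hC _ M hM _ L n _ _ hn
  have h1 : M.card ≤ ((M.image (X 0)) ×ˢ (M.image (X 1))).card := by
    apply Finset.card_le_card_of_injOn (fun m => (X 0 m, X 1 m))
    · intro m hm
      rw [Finset.mem_coe, Finset.mem_product]
      exact ⟨Finset.mem_image_of_mem _ hm, Finset.mem_image_of_mem _ hm⟩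
    · intro m hm m' hm' e
      simp only [Prod.mk.injEq] at e
      exact IsM.ext2 hC (hM m hm) (hM m' hm') (by norm_num : (0 : ℤ) ≠ 1) e.1 e.2
  rw [Finset.card_product] at h1
  have h2 := hn 0 (by simp)
  have h3 := hn 1 (by simp)
  have h4 : M.card ≤ n ^ 2 := by
    calc M.card ≤ _ := h1
      _ ≤ n * n := Nat.mul_le_mul h2 h3
      _ = n ^ 2 := by ring
  have h5 : (M.card : ℝ) ≤ (n : ℝ) ^ 2 := by exact_mod_cast h4
  rw [pow_zero, one_mul, one_mul, Real.rpow_two]
  exact h5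

section gen

/-- Cauchy-Schwarz -/
theorem cs2 {α β : Type} [DecidableEq β] (V : Finset α) (f : α → β) :
    V.card ^ 2 ≤ (V.image f).card * ((V ×ˢ V).filter fun p => f p.1 = f p.2).card := by
  have hf : ∀ v ∈ V, f v ∈ V.image f := fun v hv => Finset.mem_image_of_mem f hv
  have h1 : V.card = ∑ b ∈ V.image f, (V.filter fun v => f v = b).card :=
    Finset.card_eq_sum_card_fiberwise hf
  have h2 : ((V ×ˢ V).filter fun p => f p.1 = f p.2).card =
      ∑ b ∈ V.image f, (V.filter fun v => f v = b).card ^ 2 := by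
    rw [Finset.card_eq_sum_card_fiberwise (f := fun p : α × α => f p.1) (t := V.image f)]
    · apply Finset.sum_congr rfl
      intro b _
      rw [sq, ← Finset.card_product]
      congr 1
      ext ⟨x, y⟩
      simp only [mem_filter, mem_product]
      constructor
      · rintro ⟨⟨⟨hx, hy⟩, hxy⟩, hb⟩
        exact ⟨⟨hx, hb⟩, hy, by rw [← hxy, hb]⟩
      · rintro ⟨⟨hx, hb⟩, hy, hb'⟩
        exact ⟨⟨⟨hx, hy⟩, by rw [hb, hb']⟩, hb⟩
    · intro p hp
      rw [Finset.mem_coe, Finset.mem_filter, Finset.mem_product] at hp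
      exact hf _ hp.1.1
  rw [h2]
  calc V.card ^ 2 = (∑ b ∈ V.image f, (V.filter fun v => f v = b).card) ^ 2 := by rw [← h1]
    _ ≤ _ := sq_sum_le_card_mul_sum_sq

/-- an image is not larger than a finer image -/
theorem card_image_factor {α β γ : Type} [DecidableEq β] [DecidableEq γ] (V : Finset α) (f : α → β)
    (g : α → γ) (h : ∀ q ∈ V, ∀ q' ∈ V, g q = g q' → f q = f q') :
    (V.image f).card ≤ (V.image g).card := by
  classical
  rcases V.eq_empty_or_nonempty with he | ⟨q0, -⟩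
  · rw [he, Finset.image_empty, Finset.image_empty]
    exact le_rfl
  haveI : Nonempty α := ⟨q0⟩
  have hch : ∀ b ∈ V.image f, ∃ q ∈ V, f q = b := fun b hb => Finset.mem_image.1 hb
  choose! s hs1 hs2 using hch
  apply Finset.card_le_card_of_injOn (fun b => g (s b))
  · intro b hb
    exact Finset.mem_image_of_mem g (hs1 b hb)
  · intro b hb b' hb' e
    rw [Finset.mem_coe] at hb hb'
    have := h _ (hs1 b hb) _ (hs1 b' hb') e
    rw [hs2 b hb, hs2 b' hb'] at this
    exact this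

/-- the sizes of the fibres of an image -/
theorem sum_fibre {α β γ : Type} [DecidableEq β] [DecidableEq γ] (V : Finset α) (φ : α → β)
    (x : α → γ) : ∑ y ∈ V.image φ, ((V.filter fun q => φ q = y).image x).card ≤
      (V.image fun q => (x q, φ q)).card := by
  rw [Finset.card_eq_sum_card_fiberwise (f := fun p : γ × β => p.2) (t := V.image φ)]
  · apply Finset.sum_le_sum
    intro y _
    apply Finset.card_le_card_of_injOn (fun a => (a, y))
    · intro a ha
      rw [Finset.mem_coe, Finset.mem_image] at ha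
      obtain ⟨q, hq, rfl⟩ := ha
      rw [Finset.mem_filter] at hq
      rw [Finset.mem_coe, Finset.mem_filter, Finset.mem_image]
      exact ⟨⟨q, hq.1, by rw [hq.2]⟩, rfl⟩
    · intro a _ b _ e
      exact (Prod.mk.inj e).1
  · intro p hp
    rw [Finset.mem_coe, Finset.mem_image] at hp
    obtain ⟨q, hq, rfl⟩ := hp
    exact Finset.mem_image_of_mem _ hq

end gen

theorem rr_one {W : Finset (ℕ × MT)} {k : ℤ} {w w' : ℕ × MT} (hw : w ∈ W) (h : ¬ 2 ≤ rr W k w)
    (hw' : w' ∈ W) (h1 : w'.1 = w.1) (h2 : X k w'.2 = X k w.2) : w' = w := by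
  classical
  unfold rr at h
  have h3 : (W.filter fun w' => w'.1 = w.1 ∧ X k w'.2 = X k w.2).card ≤ 1 := by omega
  rw [Finset.card_le_one] at h3
  exact h3 w' (Finset.mem_filter.2 ⟨hw', h1, h2⟩) w (Finset.mem_filter.2 ⟨hw, rfl, rfl⟩)

end Pool.Agent.FC
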