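import Pool.Agent.helper74.FC.Fib

/-!
# Marked residue classes (MP_bb5cc8_nt): the step of the iteration
-/

set_option autoImplicit false

namespace Pool.Agent.FC

open Finset

/-- the parameters exist -/
theorem par_exists (Sj : Finset ℤ) : ∃ (E m0 D : ℤ) (ks : ℤ → ℤ), Par Sj E m0 D ks := by
  classical
  obtain ⟨E, hE⟩ : ∃ E : ℤ, E = 1 + ∑ k ∈ Sj, |k| := ⟨_, rfl⟩
  have hs : 0 ≤ ∑ k ∈ Sj, |k| := Finset.sum_nonneg fun k _ => abs_nonneg k
  have hE1 : 1 ≤ E := by linarith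
  have hkE : ∀ k ∈ Sj, k < E := by
    intro k hk
    have h1 : |k| ≤ ∑ k ∈ Sj, |k| :=
      Finset.single_le_sum (f := fun k : ℤ => |k|) (fun k _ => abs_nonneg k) hk
    have h2 := le_abs_self k
    linarith
  have hpos : ∀ k ∈ Sj, 0 < 2 * E - k := by
    intro k hk
    have := hkE k hk
    linarith
  refine ⟨E, ∏ k ∈ Sj, (2 * E - k), (∏ k ∈ Sj, (2 * E - k)) * E,
    fun k => E * k * ∏ k' ∈ Sj.erase k, (2 * E - k'), hE1, hkE, ?_, rfl, ?_⟩
  · have := Finset.prod_pos hpos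
    omega
  · intro k hk
    rw [← Finset.mul_prod_erase Sj _ hk]
    ring

/-- the step -/
theorem step {β : ℝ} (hβ : 1 ≤ β) (h : LV β) : ∃ (S : Finset ℤ) (D : ℤ) (C : ℝ) (e Δ : ℕ),
    1 ≤ C ∧ D ∈ S ∧ ∀ (N : ℕ) (P : Finset ℕ) (c : ℕ → ℤ), Cfg N P → (∀ p ∈ P, Δ < p) →
    ∀ M : Finset MT, (∀ m ∈ M, IsM N P c S m) → ∀ t : ℕ, 1 ≤ t →
    (∀ (g : ℕ) (x : ℤ), (M.filter fun m => m.1 = g ∧ X D m = x).card ≤ t) →
    ∀ L n : ℕ, 1 ≤ L → P.card * M.card ≤ 2 ^ L → t ≤ n → (∀ k ∈ S, (M.image (X k)).card ≤ n) →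
    (M.card : ℝ) ^ 2 ≤ C * (L : ℝ) ^ e * ((n : ℝ) ^ (4 - 1 / β) + t * (n : ℝ) ^ 3) := by
  classical
  obtain ⟨Sj, C, e, Δ, hC1, hβC⟩ := h
  obtain ⟨E, m0, D, ks, hp⟩ := par_exists Sj
  obtain ⟨S, hSd⟩ : ∃ S : Finset ℤ, S = Sj.image (fun k => k * m0) ∪ Sj.image ks ∪
      {0, D, -D} := ⟨_, rfl⟩
  have hS : Sl Sj m0 D ks S := by
    refine ⟨?_, ?_, ?_, ?_, ?_⟩
    · intro k hk
      rw [hSd]
      exact Finset.mem_union_left _ (Finset.mem_union_left _ (Finset.mem_image_of_mem _ hk))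
    · intro k hk
      rw [hSd]
      exact Finset.mem_union_left _ (Finset.mem_union_right _ (Finset.mem_image_of_mem _ hk))
    · rw [hSd]
      exact Finset.mem_union_right _ (by simp)
    · rw [hSd]
      exact Finset.mem_union_right _ (by simp)
    · rw [hSd]
      exact Finset.mem_union_right _ (by simp)
  have hD := D_ne hp
  obtain ⟨Ss, hSs⟩ : ∃ Ss : Finset ℤ, Ss = insert (-D) (Sj.image ks) := ⟨_, rfl⟩
  have hSsS : ∀ k ∈ Ss, k ∈ S := by
    intro k hk
    rw [hSs, Finset.mem_insert, Finset.mem_image] at hk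
    rcases hk with rfl | ⟨j, hj, rfl⟩
    · exact hS.nd
    · exact hS.kk j hj
  have hSsD : ∀ k ∈ Ss, k ≠ D := by
    intro k hk
    rw [hSs, Finset.mem_insert, Finset.mem_image] at hk
    rcases hk with rfl | ⟨j, hj, rfl⟩
    · intro h
      apply hD
      linarith
    · intro h
      have h1 := hp.hk j hj
      rw [h] at h1
      have h2 : D * (E - j) = 0 := by linarith
      rcases mul_eq_zero.1 h2 with h3 | h3
      · exact hD h3
      · have := hp.kE j hj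
        omega
  obtain ⟨Δ', hΔ'⟩ : ∃ Δ' : ℕ, Δ' = Δ + ∑ k ∈ S, (k - D).natAbs := ⟨_, rfl⟩
  have hΔS : ∀ k ∈ S, |k - D| ≤ (Δ' : ℤ) := by
    intro k hk
    have h1 : (k - D).natAbs ≤ ∑ k ∈ S, (k - D).natAbs :=
      Finset.single_le_sum (f := fun k : ℤ => (k - D).natAbs) (fun k _ => Nat.zero_le _) hk
    have h2 : |k - D| = ((k - D).natAbs : ℤ) := Int.abs_eq_natAbs _
    rw [h2]
    have : (k - D).natAbs ≤ Δ' := by omega
    exact_mod_cast this
  refine ⟨S, D, 2 * (C * Sj.card) + 8 * Ss.card + 4, e + 1, Δ', ?_, hS.dd, ?_⟩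
  · have h1 : (0 : ℝ) ≤ C * Sj.card := by positivity
    have h2 : (0 : ℝ) ≤ Ss.card := by positivity
    linarith
  intro N P c hCfg hPΔ M hM t ht1 ht L n hL1 hL htn hn
  have hn1 : 1 ≤ n := ht1.trans htn
  obtain ⟨V', hV'⟩ : ∃ V' : Finset (MT × MT), V' = (M ×ˢ M).filter fun q =>
      X D q.1 = X D q.2 ∧ q.1.1 ≠ q.2.1 := ⟨_, rfl⟩
  have memV' : ∀ q, q ∈ V' ↔ (q.1 ∈ M ∧ q.2 ∈ M) ∧ X D q.1 = X D q.2 ∧ q.1.1 ≠ q.2.1 := by
    intro q
    rw [hV', Finset.mem_filter, Finset.mem_product]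
  obtain ⟨fl, hfl⟩ : ∃ fl : MT × MT → ℕ × MT, fl = fun q => (q.1.1, q.2) := ⟨_, rfl⟩
  obtain ⟨W, hWd⟩ : ∃ W : Finset (ℕ × MT), W = V'.image fl := ⟨_, rfl⟩
  have flW : ∀ q ∈ V', fl q ∈ W := by
    intro q hq
    rw [hWd]
    exact Finset.mem_image_of_mem _ hq
  have hW : ∀ w ∈ W, IsF P c D M w := by
    intro w hw
    rw [hWd, Finset.mem_image] at hw
    obtain ⟨q, hq, rfl⟩ := hw
    obtain ⟨⟨a1, a2⟩, a3, a4⟩ := (memV' q).1 hq
    rw [hfl]
    refine ⟨(hM _ a1).g, a2, ?_⟩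
    show (q.1.1 : ℤ) ∣ X D q.2 - c q.1.1
    rw [← a3]
    exact (hM _ a1).X_dvd D
  have hWL : W.card ≤ 2 ^ L := by
    refine le_trans ?_ hL
    rw [← Finset.card_product]
    apply Finset.card_le_card
    intro w hw
    rw [Finset.mem_product]
    exact ⟨(hW w hw).g, (hW w hw).m⟩
  have hbig : ∀ k ∈ S, ∀ p ∈ P, |k - D| < (p : ℤ) := by
    intro k hk p hp
    have h1 := hΔS k hk
    have h2 : (Δ' : ℤ) < p := by exact_mod_cast hPΔ p hp
    linarith
  have hbad : ∀ k ∈ Ss, (W.filter fun w => 2 ≤ rr W k w).card ≤ 4 * L * n ^ 2 := by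
    intro k hk
    have hkS := hSsS k hk
    by_cases hk0 : k = 0
    · refine tri_total hM hW hCfg (l := -D) ?_ (hSsD k hk) ?_ hkS hS.nd (hbig k hkS)
        (hbig _ hS.nd) (hn k hkS) (hn _ hS.nd) hWL
      · rw [hk0]
        intro h
        apply hD
        linarith
      · intro h
        apply hD
        linarith
    · exact tri_total hM hW hCfg (l := 0) hk0 (hSsD k hk) hD.symm hkS hS.z (hbig k hkS)
        (hbig _ hS.z) (hn k hkS) (hn _ hS.z) hWL
  obtain ⟨Bad, hBad⟩ : ∃ Bad : Finset (ℕ × MT), Bad =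
      Ss.biUnion fun k => W.filter fun w => 2 ≤ rr W k w := ⟨_, rfl⟩
  have hBc : Bad.card ≤ Ss.card * (4 * L * n ^ 2) := by
    rw [hBad]
    exact Finset.card_biUnion_le_card_mul _ _ _ hbad
  obtain ⟨V, hVd⟩ : ∃ V : Finset (MT × MT), V = V'.filter fun q => fl q ∉ Bad := ⟨_, rfl⟩
  have hV : Gd c M Sj D ks V := by
    have gen : ∀ k ∈ Ss, ∀ q ∈ V, ∀ q' ∈ V, q.1.1 = q'.1.1 → X k q.2 = X k q'.2 →
        q.2 = q'.2 := by
      intro k hk q hq q' hq' hg hX
      rw [hVd, Finset.mem_filter] at hq hq'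
      have h1 : ¬ 2 ≤ rr W k (fl q) := by
        intro h2
        apply hq.2
        rw [hBad, Finset.mem_biUnion]
        exact ⟨k, hk, Finset.mem_filter.2 ⟨flW q hq.1, h2⟩⟩
      have h3 := rr_one (flW q hq.1) h1 (flW q' hq'.1) (by rw [hfl]; exact hg.symm)
        (by rw [hfl]; exact hX.symm)
      rw [hfl] at h3
      exact (Prod.mk.inj h3).2.symm
    refine ⟨?_, ?_, ?_, ?_⟩
    · intro q hq
      rw [hVd, Finset.mem_filter] at hq
      exact ((memV' q).1 hq.1).1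
    · intro q hq
      rw [hVd, Finset.mem_filter] at hq
      exact ((memV' q).1 hq.1).2.1
    · exact gen (-D) (by rw [hSs]; exact Finset.mem_insert_self _ _)
    · intro k hk
      exact gen (ks k) (by rw [hSs]; exact Finset.mem_insert_of_mem (Finset.mem_image_of_mem _ hk))
  have hΔP : ∀ p ∈ P, Δ < p := by
    intro p hp
    have := hPΔ p hp
    omega
  have htot := fib_total hβ hC1 hβC hCfg hΔP hM hp hS hV hL1 hL hn1 hn
  have hVV : V'.card ≤ V.card + t * Bad.card := by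
    have h1 : V'.card = V.card + (V'.filter fun q => ¬ fl q ∉ Bad).card := by
      rw [hVd]
      exact (Finset.card_filter_add_card_filter_not _).symm
    rw [h1]
    apply Nat.add_le_add_left
    have h2 : (V'.filter fun q => ¬ fl q ∉ Bad).card ≤ t * Bad.card := by
      apply Finset.card_le_mul_card_image_of_maps_to (f := fl)
      · intro q hq
        rw [Finset.mem_filter, not_not] at hq
        exact hq.2
      · intro w hw
        refine le_trans ?_ (ht w.1 (X D w.2))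
        apply Finset.card_le_card_of_injOn (fun q => q.1)
        · intro q hq
          rw [Finset.mem_coe, Finset.mem_filter, Finset.mem_filter, hfl] at hq
          obtain ⟨⟨b1, -⟩, b2⟩ := hq
          obtain ⟨⟨a1, a2⟩, a3, a4⟩ := (memV' q).1 b1
          rw [Finset.mem_coe, Finset.mem_filter]
          refine ⟨a1, ?_, ?_⟩
          · rw [← b2]
          · rw [← b2]
            exact a3
        · intro q hq q' hq' e
          rw [Finset.mem_coe, Finset.mem_filter, hfl] at hq hq'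
          simp only at e
          have h3 : q.2 = q'.2 := by
            have := hq.2.trans hq'.2.symm
            exact (Prod.mk.inj this).2
          exact Prod.ext e h3
    exact h2
  have hcs := cs2 M (X D)
  have hpairs : ((M ×ˢ M).filter fun p => X D p.1 = X D p.2).card ≤ V'.card + t * M.card := by
    have h1 : ((M ×ˢ M).filter fun p => X D p.1 = X D p.2) ⊆ V' ∪
        ((M ×ˢ M).filter fun p => X D p.1 = X D p.2 ∧ p.1.1 = p.2.1) := by
      intro q hq
      rw [Finset.mem_filter, Finset.mem_product] at hq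
      rw [Finset.mem_union, memV', Finset.mem_filter, Finset.mem_product]
      by_cases h : q.1.1 = q.2.1
      · right
        exact ⟨hq.1, hq.2, h⟩
      · left
        exact ⟨hq.1, hq.2, h⟩
    refine (Finset.card_le_card h1).trans ((Finset.card_union_le _ _).trans ?_)
    apply Nat.add_le_add_left
    apply Finset.card_le_mul_card_image_of_maps_to (f := fun q => q.1)
    · intro q hq
      rw [Finset.mem_filter, Finset.mem_product] at hq
      exact hq.1.1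
    · intro m hm
      refine le_trans ?_ (ht m.1 (X D m))
      apply Finset.card_le_card_of_injOn (fun q => q.2)
      · intro q hq
        rw [Finset.mem_coe, Finset.mem_filter, Finset.mem_filter, Finset.mem_product] at hq
        obtain ⟨⟨⟨a1, a2⟩, a3, a4⟩, a5⟩ := hq
        rw [Finset.mem_coe, Finset.mem_filter]
        refine ⟨a2, ?_, ?_⟩
        · rw [← a4, a5]
        · rw [← a3, a5]
      · intro q hq q' hq' e
        rw [Finset.mem_coe, Finset.mem_filter] at hq hq'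
        exact Prod.ext (hq.2.trans hq'.2.symm) e
  have hmain : M.card ^ 2 ≤ n * (V.card + t * (Ss.card * (4 * L * n ^ 2)) + t * M.card) := by
    refine hcs.trans (Nat.mul_le_mul (hn D hS.dd) (hpairs.trans ?_))
    have h1 : t * Bad.card ≤ t * (Ss.card * (4 * L * n ^ 2)) := Nat.mul_le_mul_left _ hBc
    omega
  -- real numbers
  have hn0 : (0 : ℝ) < n := by exact_mod_cast hn1
  have hL0 : (1 : ℝ) ≤ L := by exact_mod_cast hL1
  have ht0 : (1 : ℝ) ≤ t := by exact_mod_cast ht1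
  have htn0 : (t : ℝ) ≤ n := by exact_mod_cast htn
  have hmainR : (M.card : ℝ) ^ 2 ≤ n * (V.card + t * (Ss.card * (4 * L * (n : ℝ) ^ 2)) +
      t * M.card) := by exact_mod_cast hmain
  obtain ⟨G, hG⟩ : ∃ G : ℝ, G = (n : ℝ) ^ (4 - 1 / β) := ⟨_, rfl⟩
  have hG0 : 0 ≤ G := by rw [hG]; positivity
  have hGn : (n : ℝ) * (n : ℝ) ^ (3 - 1 / β) = G := by
    rw [hG, ← Real.rpow_one_add' hn0.le]
    · congr 1
      ring
    · have : 1 / β ≤ 1 := by
        rw [div_le_one (by linarith)]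
        exact hβ
      intro h
      linarith
  have hLe : (1 : ℝ) ≤ (L : ℝ) ^ e := one_le_pow₀ hL0
  have hLe1 : (L : ℝ) ^ e ≤ (L : ℝ) ^ (e + 1) := pow_le_pow_right₀ hL0 (Nat.le_succ e)
  have hL1e : (L : ℝ) ≤ (L : ℝ) ^ (e + 1) := by
    rw [pow_succ]
    nlinarith
  have h1Le : (1 : ℝ) ≤ (L : ℝ) ^ (e + 1) := one_le_pow₀ hL0
  rw [← hG]
  rcases le_or_gt ((2 : ℝ) * t * n) (M.card : ℝ) with hcase | hcase
  · have h1 : (n : ℝ) * (t * M.card) ≤ (M.card : ℝ) ^ 2 / 2 := by nlinarith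
    have h2 : (M.card : ℝ) ^ 2 ≤ 2 * (n * V.card) + 8 * (Ss.card * (L * (t * (n : ℝ) ^ 3))) := by
      nlinarith
    have h3 : (n : ℝ) * V.card ≤ C * (L : ℝ) ^ e * Sj.card * G := by
      calc (n : ℝ) * V.card ≤ n * (C * (L : ℝ) ^ e * Sj.card * (n : ℝ) ^ (3 - 1 / β)) :=
            mul_le_mul_of_nonneg_left htot hn0.le
        _ = C * (L : ℝ) ^ e * Sj.card * (n * (n : ℝ) ^ (3 - 1 / β)) := by ring
        _ = _ := by rw [hGn]
    have h4 : C * (L : ℝ) ^ e * Sj.card * G ≤ C * Sj.card * (L : ℝ) ^ (e + 1) * G := by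
      calc C * (L : ℝ) ^ e * Sj.card * G = C * Sj.card * G * (L : ℝ) ^ e := by ring
        _ ≤ C * Sj.card * G * (L : ℝ) ^ (e + 1) := by
            apply mul_le_mul_of_nonneg_left hLe1
            positivity
        _ = _ := by ring
    have h5 : (Ss.card : ℝ) * (L * (t * (n : ℝ) ^ 3)) ≤
        Ss.card * ((L : ℝ) ^ (e + 1) * (t * (n : ℝ) ^ 3)) := by
      apply mul_le_mul_of_nonneg_left _ (by positivity)
      apply mul_le_mul_of_nonneg_right hL1e
      positivity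
    have h6 : (0 : ℝ) ≤ (L : ℝ) ^ (e + 1) * G := by positivity
    have h7 : (0 : ℝ) ≤ (L : ℝ) ^ (e + 1) * (t * (n : ℝ) ^ 3) := by positivity
    have h8 : (0 : ℝ) ≤ C * Sj.card := by positivity
    have h9 : (0 : ℝ) ≤ Ss.card := by positivity
    have h10 : 0 ≤ C * Sj.card * ((L : ℝ) ^ (e + 1) * (t * (n : ℝ) ^ 3)) := mul_nonneg h8 h7
    have h11 : 0 ≤ Ss.card * ((L : ℝ) ^ (e + 1) * G) := mul_nonneg h9 h6
    calc (M.card : ℝ) ^ 2 ≤ 2 * (C * Sj.card * (L : ℝ) ^ (e + 1) * G) +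
          8 * (Ss.card * ((L : ℝ) ^ (e + 1) * (t * (n : ℝ) ^ 3))) := by linarith
      _ ≤ (2 * (C * Sj.card) + 8 * Ss.card + 4) * (L : ℝ) ^ (e + 1) * (G + t * (n : ℝ) ^ 3) := by
          nlinarith
  · have h1 : (M.card : ℝ) ^ 2 ≤ (2 * t * n) ^ 2 := by
      apply pow_le_pow_left₀ (by positivity) hcase.le
    have h2 : ((2 : ℝ) * t * n) ^ 2 ≤ 4 * (t * (n : ℝ) ^ 3) := by
      have h3 : (t : ℝ) * (t * (n : ℝ) ^ 2) ≤ n * (t * (n : ℝ) ^ 2) :=
        mul_le_mul_of_nonneg_right htn0 (by positivity)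
      nlinarith
    have h6 : (0 : ℝ) ≤ t * (n : ℝ) ^ 3 := by positivity
    have h8 : (0 : ℝ) ≤ C * Sj.card := by positivity
    have h9 : (0 : ℝ) ≤ Ss.card := by positivity
    have h10 : (4 : ℝ) ≤ (2 * (C * Sj.card) + 8 * Ss.card + 4) * (L : ℝ) ^ (e + 1) := by
      nlinarith
    calc (M.card : ℝ) ^ 2 ≤ 4 * (t * (n : ℝ) ^ 3) := h1.trans h2
      _ ≤ 4 * (G + t * (n : ℝ) ^ 3) := by linarith
      _ ≤ (2 * (C * Sj.card) + 8 * Ss.card + 4) * (L : ℝ) ^ (e + 1) * (G + t * (n : ℝ) ^ 3) := by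
          apply mul_le_mul_of_nonneg_right h10
          linarith

/-- the iteration -/
theorem LV_step {β : ℝ} (hβ : 1 ≤ β) (h : LV β) : LV (2 - 1 / (2 * β)) := by
  classical
  obtain ⟨S, D, C, e, Δ, hC1, hDS, hst⟩ := step hβ h
  refine ⟨S, 2 * C, e, Δ, by linarith, ?_⟩
  intro N P c hCfg hPΔ M hM hthin L n hL1 hL hn
  have hL0 : (1 : ℝ) ≤ L := by exact_mod_cast hL1
  rcases Nat.eq_zero_or_pos n with hn0 | hn0
  · have h1 : M = ∅ := by
      by_contra hne
      obtain ⟨m, hm⟩ := Finset.nonempty_iff_ne_empty.2 hne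
      have h2 := hn D hDS
      have h3 : 0 < (M.image (X D)).card := Finset.card_pos.2 ⟨_, Finset.mem_image_of_mem _ hm⟩
      omega
    rw [h1, Finset.card_empty]
    have : (0 : ℝ) ≤ 2 * C * (L : ℝ) ^ e * (n : ℝ) ^ (2 - 1 / (2 * β)) := by positivity
    exact_mod_cast this
  · have h1 := hst N P c hCfg hPΔ M hM 1 le_rfl (by
      intro g x
      rw [Finset.card_le_one]
      intro a ha b hb
      rw [Finset.mem_filter] at ha hb
      exact hthin D hDS a ha.1 b hb.1 (ha.2.1.trans hb.2.1.symm) (ha.2.2.trans hb.2.2.symm))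
      L n hL1 hL hn0 hn
    have hn1 : (1 : ℝ) ≤ n := by exact_mod_cast hn0
    have h2 : ((1 : ℕ) : ℝ) * (n : ℝ) ^ 3 ≤ (n : ℝ) ^ (4 - 1 / β) := by
      rw [Nat.cast_one, one_mul, ← Real.rpow_natCast]
      apply Real.rpow_le_rpow_of_exponent_le hn1
      have : 1 / β ≤ 1 := by
        rw [div_le_one (by linarith)]
        exact hβ
      push_cast
      linarith
    have hLe : (1 : ℝ) ≤ (L : ℝ) ^ e := one_le_pow₀ hL0
    have hK : 1 ≤ 2 * C * (L : ℝ) ^ e := by nlinarith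
    have h3 : (M.card : ℝ) ^ 2 ≤ (2 * C * (L : ℝ) ^ e * (n : ℝ) ^ (2 - 1 / (2 * β))) ^ 2 := by
      have h4 : ((n : ℝ) ^ (2 - 1 / (2 * β))) ^ 2 = (n : ℝ) ^ (4 - 1 / β) := by
        rw [← Real.rpow_natCast, ← Real.rpow_mul (by linarith)]
        congr 1
        push_cast
        field_simp
        ring
      have h5 : 0 ≤ (n : ℝ) ^ (4 - 1 / β) := by positivity
      rw [mul_pow, h4]
      calc (M.card : ℝ) ^ 2 ≤ C * (L : ℝ) ^ e * ((n : ℝ) ^ (4 - 1 / β) +
            ((1 : ℕ) : ℝ) * (n : ℝ) ^ 3) := h1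
        _ ≤ C * (L : ℝ) ^ e * ((n : ℝ) ^ (4 - 1 / β) + (n : ℝ) ^ (4 - 1 / β)) := by
            apply mul_le_mul_of_nonneg_left _ (by positivity)
            linarith
        _ = 2 * C * (L : ℝ) ^ e * (n : ℝ) ^ (4 - 1 / β) := by ring
        _ ≤ (2 * C * (L : ℝ) ^ e) ^ 2 * (n : ℝ) ^ (4 - 1 / β) := by
            apply mul_le_mul_of_nonneg_right _ h5
            nlinarith
    exact (pow_le_pow_iff_left₀ (by positivity) (by positivity) (by norm_num)).1 h3

end Pool.Agent.FC
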