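import Pool.Agent.helper74.FC.Fam

/-!
# Marked residue classes (MP_bb5cc8_nt): the bound for the union of the classes
-/

set_option autoImplicit false

namespace Pool.Agent.FC

open Finset

/-- the union of the classes -/
noncomputable def EE (N : ℕ) (Q : Finset ℕ) (c : ℕ → ℤ) : Finset ℤ := by
  classical
  exact (Icc (1 : ℤ) N).filter fun x => ∃ p ∈ Q, (p : ℤ) ∣ x - c p

theorem mem_EE {N : ℕ} {Q : Finset ℕ} {c : ℕ → ℤ} {x : ℤ} :
    x ∈ EE N Q c ↔ x ∈ Icc (1 : ℤ) N ∧ ∃ p ∈ Q, (p : ℤ) ∣ x - c p := by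
  classical
  unfold EE
  rw [Finset.mem_filter]

/-- the bound for fixed parameters -/
theorem fixed {κ : ℝ} {S : Finset ℤ} {D : ℤ} {C : ℝ} {e Δ : ℕ}
    (hst : ∀ (N : ℕ) (P : Finset ℕ) (c : ℕ → ℤ), Cfg N P → (∀ p ∈ P, Δ < p) →
    ∀ M : Finset MT, (∀ m ∈ M, IsM N P c S m) → ∀ t : ℕ, 1 ≤ t →
    (∀ (g : ℕ) (x : ℤ), (M.filter fun m => m.1 = g ∧ X D m = x).card ≤ t) →
    ∀ L n : ℕ, 1 ≤ L → P.card * M.card ≤ 2 ^ L → t ≤ n → (∀ k ∈ S, (M.image (X k)).card ≤ n) →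
    (M.card : ℝ) ^ 2 ≤ C * (L : ℝ) ^ e * ((n : ℝ) ^ κ + t * (n : ℝ) ^ 3))
    {N : ℕ} {Q : Finset ℕ} {c : ℕ → ℤ} (hCfg : Cfg N Q) (hΔ : ∀ p ∈ Q, Δ < p) (H J T : ℕ)
    (hH : ∀ k ∈ S, |k| ≤ (H : ℤ)) (hH1 : 1 ≤ H)
    (hc : ∀ p ∈ Q, 0 ≤ c p ∧ c p < p) (h1 : ∀ p ∈ Q, 6 * (p * T * H) ≤ N)
    (h2 : ∀ p ∈ Q, 6 * (p * J) ≤ N) (h3 : ∀ p ∈ Q, 12 * p ≤ N) (hT : 1 ≤ T) (hJN : J ≤ N)
    (hTN : T ≤ N) (hne : Q.Nonempty) :
    ((Q.card * (J * T) : ℕ) : ℝ) ^ 2 ≤ C * ((4 * (Nat.log 2 N + 1) : ℕ) : ℝ) ^ e *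
      (((EE N Q c).card : ℝ) ^ κ + T * ((EE N Q c).card : ℝ) ^ 3) := by
  classical
  obtain ⟨M, hM, hMc, hMt⟩ := fam S H J T hH hH1 hCfg.prm hc h1 h2 h3
  rw [← hMc]
  have hN : 1 ≤ N := by
    obtain ⟨p, hp⟩ := hne
    have := h3 p hp
    have := (hCfg.prm p hp).pos
    omega
  have hQN : Q.card ≤ N := by
    have h4 : Q ⊆ range N := by
      intro p hp
      have := h3 p hp
      have := (hCfg.prm p hp).pos
      rw [Finset.mem_range]
      omega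
    have := Finset.card_le_card h4
    rwa [Finset.card_range] at this
  apply hst N Q c hCfg hΔ M hM T hT (hMt D)
  · omega
  · rw [hMc]
    have h4 : N ≤ 2 ^ (Nat.log 2 N + 1) := (Nat.lt_pow_succ_log_self (by norm_num) N).le
    calc Q.card * (Q.card * (J * T)) ≤ N * (N * (N * N)) :=
          Nat.mul_le_mul hQN (Nat.mul_le_mul hQN (Nat.mul_le_mul hJN hTN))
      _ = N ^ 4 := by ring
      _ ≤ (2 ^ (Nat.log 2 N + 1)) ^ 4 := Nat.pow_le_pow_left h4 4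
      _ = 2 ^ (4 * (Nat.log 2 N + 1)) := by
          rw [← pow_mul]
          congr 1
          ring
  · obtain ⟨p, hp⟩ := hne
    have g1 := h1 p hp
    have g3 := h3 p hp
    have hp1 := (hCfg.prm p hp).pos
    obtain ⟨hc0, hc1⟩ := hc p hp
    have h4 : ((range T).image fun w : ℕ => c p + (p : ℤ) * ((w + 1 : ℕ) : ℤ)).card = T := by
      rw [Finset.card_image_of_injective, Finset.card_range]
      intro w w' e
      simp only at e
      have hp0 : (p : ℤ) ≠ 0 := by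
        have : (0 : ℤ) < p := by exact_mod_cast hp1
        exact this.ne'
      have e4 := mul_left_cancel₀ hp0 (add_left_cancel e)
      have e6 : w + 1 = w' + 1 := by exact_mod_cast e4
      omega
    rw [← h4]
    apply Finset.card_le_card
    intro x hx
    obtain ⟨w, hw, rfl⟩ := Finset.mem_image.1 hx
    rw [Finset.mem_range] at hw
    rw [mem_EE, Finset.mem_Icc]
    have h5 : 6 * (p * (w + 1)) ≤ N := by
      refine le_trans ?_ g1
      calc 6 * (p * (w + 1)) ≤ 6 * (p * T) := by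
            apply Nat.mul_le_mul_left
            apply Nat.mul_le_mul_left
            omega
        _ ≤ 6 * (p * T) * H := Nat.le_mul_of_pos_right _ (by omega)
        _ = 6 * (p * T * H) := by ring
    have z5 : 6 * ((p : ℤ) * (w + 1)) ≤ N := by exact_mod_cast h5
    have z3 : 12 * (p : ℤ) ≤ N := by exact_mod_cast g3
    have zp1 : (1 : ℤ) ≤ p := by exact_mod_cast hp1
    have z6 : (p : ℤ) ≤ (p : ℤ) * (w + 1) := by nlinarith
    push_cast
    refine ⟨⟨by linarith, by linarith⟩, p, hp, ?_⟩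
    have : c p + (p : ℤ) * ((w : ℤ) + 1) - c p = (p : ℤ) * (w + 1) := by ring
    rw [this]
    exact dvd_mul_right _ _
  · intro k hk
    apply Finset.card_le_card
    intro x hx
    obtain ⟨m, hm, rfl⟩ := Finset.mem_image.1 hx
    rw [mem_EE]
    exact ⟨(hM m hm).sl k hk, m.1, (hM m hm).g, (hM m hm).X_dvd k⟩

/-- the bound for the union -/
theorem top {κ : ℝ} (h : TB κ) (α : ℝ) (hα : 1 / 2 < α) (hα1 : α < 1) (ε : ℝ) (hε : 0 < ε) :
    ∃ N₀ : ℕ, ∀ N : ℕ, N₀ ≤ N → ∀ (Q : Finset ℕ) (c : ℕ → ℤ),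
      (∀ p ∈ Q, p.Prime ∧ (N : ℝ) ^ α ≤ (p : ℝ) ∧ (p : ℝ) < 2 * (N : ℝ) ^ α) →
      (∀ p ∈ Q, 0 ≤ c p ∧ c p < p) →
      (Q.card * (N : ℝ) ^ (2 - 2 * α)) ^ 2 ≤ (N : ℝ) ^ ε *
        (((EE N Q c).card : ℝ) ^ κ + (N : ℝ) ^ (1 - α) * ((EE N Q c).card : ℝ) ^ 3) := by
  classical
  obtain ⟨S, D, C, e, Δ, hC1, hDS, hst⟩ := h
  obtain ⟨H, hHd⟩ : ∃ H : ℕ, H = 1 + ∑ k ∈ S, k.natAbs := ⟨_, rfl⟩
  have hH1 : 1 ≤ H := by omega
  have hH : ∀ k ∈ S, |k| ≤ (H : ℤ) := by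
    intro k hk
    have h1 : k.natAbs ≤ ∑ k ∈ S, k.natAbs :=
      Finset.single_le_sum (f := fun k : ℤ => k.natAbs) (fun k _ => Nat.zero_le _) hk
    rw [Int.abs_eq_natAbs]
    have : k.natAbs ≤ H := by omega
    exact_mod_cast this
  have hHR : (1 : ℝ) ≤ H := by exact_mod_cast hH1
  -- large N
  obtain ⟨K, hKd⟩ : ∃ K : ℝ, K = (24 * 24 * H) ^ 2 * (C * (15 : ℝ) ^ e) := ⟨_, rfl⟩
  have hK0 : 0 < K := by rw [hKd]; positivity
  have ev1 : ∀ᶠ N : ℕ in Filter.atTop, (24 * H : ℝ) ≤ (N : ℝ) ^ (1 - α) :=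
    ((tendsto_rpow_atTop (by linarith : 0 < 1 - α)).comp
      tendsto_natCast_atTop_atTop).eventually_ge_atTop _
  have ev2 : ∀ᶠ N : ℕ in Filter.atTop, (Δ + 1 : ℝ) ≤ (N : ℝ) ^ α :=
    ((tendsto_rpow_atTop (by linarith : 0 < α)).comp
      tendsto_natCast_atTop_atTop).eventually_ge_atTop _
  have ev3 : ∀ᶠ N : ℕ in Filter.atTop, K ≤ (N : ℝ) ^ (ε / 2) :=
    ((tendsto_rpow_atTop (by linarith : 0 < ε / 2)).comp
      tendsto_natCast_atTop_atTop).eventually_ge_atTop _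
  have ev4 : ∀ᶠ N : ℕ in Filter.atTop, Real.log (N : ℝ) ≤ (N : ℝ) ^ (ε / (2 * (e + 1))) := by
    have h := (isLittleO_log_rpow_atTop (r := ε / (2 * (e + 1))) (by positivity)).bound
      (show (0 : ℝ) < 1 by norm_num)
    have h' := tendsto_natCast_atTop_atTop.eventually h
    filter_upwards [h', Filter.eventually_ge_atTop 1] with N hN hN1
    have hN1' : (1 : ℝ) ≤ N := by exact_mod_cast hN1
    rw [Real.norm_of_nonneg (Real.log_nonneg hN1'),
      Real.norm_of_nonneg (Real.rpow_nonneg (by linarith) _)] at hN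
    linarith
  obtain ⟨N₀, hN₀⟩ := Filter.eventually_atTop.mp
    (ev1.and (ev2.and (ev3.and (ev4.and (Filter.eventually_ge_atTop 3)))))
  refine ⟨N₀, ?_⟩
  intro N hN Q c hQ hc
  obtain ⟨e1, e2, e3, e4, hN3⟩ := hN₀ N hN
  have hNR3 : (3 : ℝ) ≤ N := by exact_mod_cast hN3
  have hN0 : (0 : ℝ) < N := by linarith
  have hN1 : (1 : ℝ) ≤ N := by linarith
  rcases Q.eq_empty_or_nonempty with hQe | hne
  · rw [hQe, Finset.card_empty, Nat.cast_zero, zero_mul, zero_pow (by norm_num)]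
    positivity
  obtain ⟨Y, hY⟩ : ∃ Y : ℝ, Y = (N : ℝ) ^ (1 - α) := ⟨_, rfl⟩
  obtain ⟨Z, hZ⟩ : ∃ Z : ℝ, Z = (N : ℝ) ^ α := ⟨_, rfl⟩
  rw [← hY] at e1 ⊢
  rw [← hZ] at e2
  have hYZ : Z * Y = N := by
    rw [hY, hZ, ← Real.rpow_add hN0]
    simp
  have hZ1 : 1 ≤ Z := by
    rw [hZ]
    exact Real.one_le_rpow hN1 (by linarith)
  have hY0 : 0 < Y := by linarith
  have hYN : Y ≤ N := by
    rw [hY]
    calc (N : ℝ) ^ (1 - α) ≤ (N : ℝ) ^ (1 : ℝ) :=
          Real.rpow_le_rpow_of_exponent_le hN1 (by linarith)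
      _ = N := Real.rpow_one _
  have hpZ : ∀ p ∈ Q, Z ≤ (p : ℝ) ∧ (p : ℝ) ≤ 2 * Z := by
    intro p hp
    rw [hZ]
    exact ⟨(hQ p hp).2.1, (hQ p hp).2.2.le⟩
  have hCfg : Cfg N Q := by
    refine ⟨fun p hp => (hQ p hp).1, ?_⟩
    intro p hp q hq
    have h1 := (hpZ p hp).1
    have h2 := (hpZ q hq).1
    have h3 : (N : ℝ) < Z * Z := by
      rw [hZ, ← Real.rpow_add hN0]
      calc (N : ℝ) = (N : ℝ) ^ (1 : ℝ) := (Real.rpow_one _).symm
        _ < (N : ℝ) ^ (α + α) := Real.rpow_lt_rpow_of_exponent_lt (by linarith) (by linarith)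
    have h4 : Z * Z ≤ (p : ℝ) * q := mul_le_mul h1 h2 (by linarith) (by linarith)
    have h5 : (N : ℝ) < ((p * q : ℕ) : ℝ) := by
      push_cast
      linarith
    exact_mod_cast h5
  have hΔ : ∀ p ∈ Q, Δ < p := by
    intro p hp
    have h1 := (hpZ p hp).1
    have h2 : (Δ : ℝ) < p := by linarith
    exact_mod_cast h2
  obtain ⟨T, hT⟩ : ∃ T : ℕ, T = ⌊Y / (12 * H)⌋₊ := ⟨_, rfl⟩
  obtain ⟨J, hJ⟩ : ∃ J : ℕ, J = ⌊Y / 12⌋₊ := ⟨_, rfl⟩
  have hT1 : (T : ℝ) ≤ Y / (12 * H) := by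
    rw [hT]
    exact Nat.floor_le (by positivity)
  have hJ1 : (J : ℝ) ≤ Y / 12 := by
    rw [hJ]
    exact Nat.floor_le (by positivity)
  have hT2 : Y / (24 * H) ≤ T := by
    have h1 : Y / (12 * H) < T + 1 := by
      rw [hT]
      exact Nat.lt_floor_add_one _
    have h2 : 1 ≤ Y / (24 * H) := by
      rw [le_div_iff₀ (by positivity)]
      linarith
    have h3 : Y / (12 * H) = 2 * (Y / (24 * H)) := by
      field_simp
      ring
    linarith
  have hJ2 : Y / 24 ≤ J := by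
    have h1 : Y / 12 < J + 1 := by
      rw [hJ]
      exact Nat.lt_floor_add_one _
    linarith
  have hTpos : 1 ≤ T := by
    have h2 : 1 ≤ Y / (24 * H) := by
      rw [le_div_iff₀ (by positivity)]
      linarith
    have h3 : (1 : ℝ) ≤ T := h2.trans hT2
    exact_mod_cast h3
  have hTY : (T : ℝ) ≤ Y := by
    refine hT1.trans ?_
    rw [div_le_iff₀ (by positivity)]
    nlinarith
  have h1 : ∀ p ∈ Q, 6 * (p * T * H) ≤ N := by
    intro p hp
    have g1 := (hpZ p hp).2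
    have g2 : (T : ℝ) * H ≤ Y / 12 := by
      calc (T : ℝ) * H ≤ Y / (12 * H) * H := mul_le_mul_of_nonneg_right hT1 (by positivity)
        _ = Y / 12 := by field_simp
    have g3 : ((6 * (p * T * H) : ℕ) : ℝ) ≤ N := by
      push_cast
      calc 6 * ((p : ℝ) * T * H) = 6 * (p * (T * H)) := by ring
        _ ≤ 6 * (2 * Z * (Y / 12)) := by
            apply mul_le_mul_of_nonneg_left _ (by norm_num)
            exact mul_le_mul g1 g2 (by positivity) (by positivity)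
        _ = Z * Y := by ring
        _ = N := hYZ
    exact_mod_cast g3
  have h2 : ∀ p ∈ Q, 6 * (p * J) ≤ N := by
    intro p hp
    have g1 := (hpZ p hp).2
    have g3 : ((6 * (p * J) : ℕ) : ℝ) ≤ N := by
      push_cast
      calc 6 * ((p : ℝ) * J) ≤ 6 * (2 * Z * (Y / 12)) := by
            apply mul_le_mul_of_nonneg_left _ (by norm_num)
            exact mul_le_mul g1 hJ1 (by positivity) (by positivity)
        _ = Z * Y := by ring
        _ = N := hYZ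
    exact_mod_cast g3
  have h3 : ∀ p ∈ Q, 12 * p ≤ N := by
    intro p hp
    have g1 := (hpZ p hp).2
    have g3 : ((12 * p : ℕ) : ℝ) ≤ N := by
      push_cast
      rw [← hYZ]
      nlinarith
    exact_mod_cast g3
  have hJN : J ≤ N := by
    have : (J : ℝ) ≤ N := by linarith
    exact_mod_cast this
  have hTN : T ≤ N := by
    have : (T : ℝ) ≤ N := by linarith
    exact_mod_cast this
  have main := fixed hst hCfg hΔ H J T hH hH1 hc h1 h2 h3 hTpos hJN hTN hne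
  obtain ⟨n, hn⟩ : ∃ n : ℝ, n = ((EE N Q c).card : ℝ) := ⟨_, rfl⟩
  rw [← hn] at main ⊢
  have hn0 : 0 ≤ n := by rw [hn]; positivity
  -- the logarithm
  have hL : ((4 * (Nat.log 2 N + 1) : ℕ) : ℝ) ≤ 15 * Real.log N := by
    have hlog1 : 1 ≤ Real.log N := by
      rw [Real.le_log_iff_exp_le hN0]
      have := Real.exp_one_lt_d9
      linarith
    have g1 : (Nat.log 2 N : ℝ) ≤ Real.log N / Real.log 2 := by
      rw [le_div_iff₀ (Real.log_pos (by norm_num))]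
      have g2 : ((2 ^ Nat.log 2 N : ℕ) : ℝ) ≤ N := by
        exact_mod_cast Nat.pow_log_le_self 2 (by omega)
      have g3 := Real.log_le_log (by positivity) g2
      push_cast at g3
      rw [Real.log_pow] at g3
      exact g3
    have g4 : Real.log N / Real.log 2 ≤ 2 * Real.log N := by
      rw [div_le_iff₀ (Real.log_pos (by norm_num))]
      have := Real.log_two_gt_d9
      nlinarith
    push_cast
    linarith
  have hLe : C * ((4 * (Nat.log 2 N + 1) : ℕ) : ℝ) ^ e ≤ C * (15 : ℝ) ^ e * (N : ℝ) ^ (ε / 2) := by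
    have g1 : ((4 * (Nat.log 2 N + 1) : ℕ) : ℝ) ^ e ≤ (15 * Real.log N) ^ e :=
      pow_le_pow_left₀ (by positivity) hL e
    have g2 : Real.log N ^ e ≤ ((N : ℝ) ^ (ε / (2 * (e + 1)))) ^ e :=
      pow_le_pow_left₀ (Real.log_nonneg hN1) e4 e
    have g3 : ((N : ℝ) ^ (ε / (2 * (e + 1)))) ^ e ≤ (N : ℝ) ^ (ε / 2) := by
      rw [← Real.rpow_natCast, ← Real.rpow_mul hN0.le]
      apply Real.rpow_le_rpow_of_exponent_le hN1
      rw [div_mul_eq_mul_div, div_le_div_iff₀ (by positivity) (by norm_num)]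
      nlinarith
    calc C * ((4 * (Nat.log 2 N + 1) : ℕ) : ℝ) ^ e ≤ C * (15 * Real.log N) ^ e :=
          mul_le_mul_of_nonneg_left g1 (by linarith)
      _ = C * (15 : ℝ) ^ e * Real.log N ^ e := by rw [mul_pow]; ring
      _ ≤ C * (15 : ℝ) ^ e * (N : ℝ) ^ (ε / 2) :=
          mul_le_mul_of_nonneg_left (g2.trans g3) (by positivity)
  have hYY : (N : ℝ) ^ (2 - 2 * α) = Y * Y := by
    rw [hY, ← Real.rpow_add hN0]
    congr 1
    ring
  have hlow : (Q.card : ℝ) * (N : ℝ) ^ (2 - 2 * α) ≤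
      24 * 24 * H * ((Q.card * (J * T) : ℕ) : ℝ) := by
    rw [hYY]
    have g1 : Y * Y ≤ 24 * 24 * H * ((J : ℝ) * T) := by
      have g2 : Y / 24 * (Y / (24 * H)) ≤ (J : ℝ) * T :=
        mul_le_mul hJ2 hT2 (by positivity) (by positivity)
      have g3 : Y * Y = 24 * 24 * H * (Y / 24 * (Y / (24 * H))) := by
        field_simp
      rw [g3]
      exact mul_le_mul_of_nonneg_left g2 (by positivity)
    push_cast
    calc (Q.card : ℝ) * (Y * Y) ≤ Q.card * (24 * 24 * H * ((J : ℝ) * T)) :=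
          mul_le_mul_of_nonneg_left g1 (by positivity)
      _ = _ := by ring
  have hTn : (T : ℝ) * n ^ 3 ≤ Y * n ^ 3 := mul_le_mul_of_nonneg_right hTY (by positivity)
  have hG0 : 0 ≤ n ^ κ + Y * n ^ 3 := by positivity
  calc ((Q.card : ℝ) * (N : ℝ) ^ (2 - 2 * α)) ^ 2
      ≤ (24 * 24 * H * ((Q.card * (J * T) : ℕ) : ℝ)) ^ 2 :=
        pow_le_pow_left₀ (by positivity) hlow 2
    _ = (24 * 24 * H) ^ 2 * ((Q.card * (J * T) : ℕ) : ℝ) ^ 2 := by ring
    _ ≤ (24 * 24 * H) ^ 2 * (C * ((4 * (Nat.log 2 N + 1) : ℕ) : ℝ) ^ e * (n ^ κ + T * n ^ 3)) :=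
        mul_le_mul_of_nonneg_left main (by positivity)
    _ ≤ (24 * 24 * H) ^ 2 * (C * (15 : ℝ) ^ e * (N : ℝ) ^ (ε / 2) * (n ^ κ + Y * n ^ 3)) := by
        apply mul_le_mul_of_nonneg_left _ (by positivity)
        apply mul_le_mul hLe _ (by positivity) (by positivity)
        linarith
    _ = K * (N : ℝ) ^ (ε / 2) * (n ^ κ + Y * n ^ 3) := by rw [hKd]; ring
    _ ≤ (N : ℝ) ^ (ε / 2) * (N : ℝ) ^ (ε / 2) * (n ^ κ + Y * n ^ 3) := by
        apply mul_le_mul_of_nonneg_right _ hG0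
        exact mul_le_mul_of_nonneg_right e3 (by positivity)
    _ = (N : ℝ) ^ ε * (n ^ κ + Y * n ^ 3) := by
        rw [← Real.rpow_add hN0]
        congr 2
        ring

end Pool.Agent.FC
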