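import Mathlib

/-!
# Marked residue classes (MP_bb5cc8_nt): flags and triangles

`P` is a finite set of primes with `p q > N`, `c p` a class modulo `p`. A marked class is `(g, A, v)`: `g ∈ P`,
`A ≡ c g`, `v ≡ 0` modulo `g`, `v ≠ 0`. Its slices are the points `A + k v`, `k ∈ S`.
A flag is `(g, m)` with a marked class `m` whose point `A + D v` is in the class of `g`.
-/

set_option autoImplicit false

namespace Pool.Agent.FC

open Finset

/-- the hypotheses on `P` -/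
structure Cfg (N : ℕ) (P : Finset ℕ) : Prop where
  prm : ∀ p ∈ P, p.Prime
  big : ∀ p ∈ P, ∀ q ∈ P, N < p * q

/-- marked classes -/
abbrev MT : Type := ℕ × ℤ × ℤ

/-- the slice `k` -/
def X (k : ℤ) (m : MT) : ℤ := m.2.1 + k * m.2.2

/-- `m` is a marked class with slices in `[1, N]` -/
structure IsM (N : ℕ) (P : Finset ℕ) (c : ℕ → ℤ) (S : Finset ℤ) (m : MT) : Prop where
  g : m.1 ∈ P
  a : (m.1 : ℤ) ∣ m.2.1 - c m.1
  v : (m.1 : ℤ) ∣ m.2.2
  v0 : m.2.2 ≠ 0
  vN : |m.2.2| ≤ N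
  sl : ∀ k ∈ S, X k m ∈ Icc (1 : ℤ) N

/-- a flag -/
structure IsF (P : Finset ℕ) (c : ℕ → ℤ) (D : ℤ) (M : Finset MT) (w : ℕ × MT) : Prop where
  g : w.1 ∈ P
  m : w.2 ∈ M
  b : (w.1 : ℤ) ∣ X D w.2 - c w.1

open Classical in
/-- the number of flags with the same `g` and the same slice `k` -/
noncomputable def rr (W : Finset (ℕ × MT)) (k : ℤ) (w : ℕ × MT) : ℕ :=
  (W.filter fun w' => w'.1 = w.1 ∧ X k w'.2 = X k w.2).card

section basic

variable {N : ℕ} {P : Finset ℕ} {c : ℕ → ℤ}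

theorem uniq (h : Cfg N P) {p q : ℕ} (hp : p ∈ P) (hq : q ∈ P) {z : ℤ} (hz0 : z ≠ 0)
    (hz : |z| ≤ N) (h1 : (p : ℤ) ∣ z) (h2 : (q : ℤ) ∣ z) : p = q := by
  by_contra hpq
  have hc : IsCoprime (p : ℤ) (q : ℤ) :=
    Nat.isCoprime_iff_coprime.2 ((Nat.coprime_primes (h.prm p hp) (h.prm q hq)).2 hpq)
  have h3 : (p : ℤ) * q ∣ z := hc.mul_dvd h1 h2
  apply hz0
  apply Int.eq_zero_of_abs_lt_dvd h3
  have := h.big p hp q hq
  have h4 : (N : ℤ) < (p : ℤ) * q := by exact_mod_cast this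
  linarith

theorem absIcc {x y : ℤ} (hx : x ∈ Icc (1 : ℤ) N) (hy : y ∈ Icc (1 : ℤ) N) : |x - y| ≤ N := by
  rw [Finset.mem_Icc] at hx hy
  rw [abs_le]
  constructor <;> linarith [hx.1, hx.2, hy.1, hy.2]

theorem IsM.X_dvd {S : Finset ℤ} {m : MT} (h : IsM N P c S m) (k : ℤ) :
    (m.1 : ℤ) ∣ X k m - c m.1 := by
  have e : X k m - c m.1 = (m.2.1 - c m.1) + k * m.2.2 := by unfold X; ring
  rw [e]
  exact dvd_add h.a (Dvd.dvd.mul_left h.v k)

/-- a marked class is determined by its point and vector -/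
theorem IsM.ext (hC : Cfg N P) {S : Finset ℤ} {m m' : MT} (h : IsM N P c S m)
    (h' : IsM N P c S m') (h1 : m.2.1 = m'.2.1) (h2 : m.2.2 = m'.2.2) : m = m' := by
  have h3 : m.1 = m'.1 := by
    apply uniq hC h.g h'.g h.v0 h.vN h.v
    rw [h2]
    exact h'.v
  exact Prod.ext h3 (Prod.ext h1 h2)

/-- two slices determine a marked class -/
theorem IsM.ext2 (hC : Cfg N P) {S : Finset ℤ} {m m' : MT} (h : IsM N P c S m)
    (h' : IsM N P c S m') {k l : ℤ} (hkl : k ≠ l) (h1 : X k m = X k m') (h2 : X l m = X l m') :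
    m = m' := by
  unfold X at h1 h2
  have h3 : (k - l) * (m.2.2 - m'.2.2) = 0 := by linear_combination h1 - h2
  have h4 : m.2.2 = m'.2.2 := by
    rcases mul_eq_zero.1 h3 with h5 | h5
    · exact absurd (sub_eq_zero.1 h5) hkl
    · exact sub_eq_zero.1 h5
  apply IsM.ext hC h h' _ h4
  rw [h4] at h1
  linarith

/-- two points in a class and two classes: at most one common point -/
theorem pt_uniq (hC : Cfg N P) {p q : ℕ} (hp : p ∈ P) (hq : q ∈ P) (hpq : p ≠ q)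
    {x y : ℤ} (hx : x ∈ Icc (1 : ℤ) N) (hy : y ∈ Icc (1 : ℤ) N) (h1 : (p : ℤ) ∣ x - y)
    (h2 : (q : ℤ) ∣ x - y) : x = y := by
  by_contra hxy
  exact hpq (uniq hC hp hq (sub_ne_zero.2 hxy) (absIcc hx hy) h1 h2)

end basic

section tri

variable {N : ℕ} {P : Finset ℕ} {c : ℕ → ℤ} {S : Finset ℤ} {D : ℤ} {M : Finset MT} {n : ℕ}

/-- the triangle: two flags with the same `g` and the same slice `k` -/
theorem tri_div (hM : ∀ m ∈ M, IsM N P c S m) {W : Finset (ℕ × MT)}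
    (hW : ∀ w ∈ W, IsF P c D M w) {k l : ℤ} (hC : Cfg N P) (hkl : k ≠ l) (hkD : k ≠ D)
    (hbig : ∀ p ∈ P, |k - D| < (p : ℤ)) {w w' : ℕ × MT} (hw : w ∈ W) (hw' : w' ∈ W)
    (hg : w'.1 = w.1) (hX : X k w'.2 = X k w.2) (hne : w' ≠ w) :
    X l w.2 ≠ X l w'.2 ∧ (w.1 : ℤ) ∣ X l w.2 - X l w'.2 := by
  have m1 := hM _ (hW w hw).m
  have m2 := hM _ (hW w' hw').m
  have e : (k - D) * (X l w.2 - X l w'.2) = (k - l) * (X D w.2 - X D w'.2) := by
    unfold X at hX ⊢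
    linear_combination (D - l) * hX
  have hB : X D w.2 ≠ X D w'.2 := by
    intro hB
    apply hne
    have := IsM.ext2 hC m2 m1 hkD hX hB.symm
    exact Prod.ext hg this
  constructor
  · intro h
    rw [h, sub_self, mul_zero] at e
    rcases mul_eq_zero.1 e.symm with h5 | h5
    · exact hkl (sub_eq_zero.1 h5)
    · exact hB (sub_eq_zero.1 h5)
  · have h1 : (w.1 : ℤ) ∣ X D w.2 - X D w'.2 := by
      have h2 := (hW w hw).b
      have h3 := (hW w' hw').b
      rw [hg] at h3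
      have h4 := dvd_sub h2 h3
      have e2 : X D w.2 - c w.1 - (X D w'.2 - c w.1) = X D w.2 - X D w'.2 := by ring
      rwa [e2] at h4
    have h2 : (w.1 : ℤ) ∣ (k - D) * (X l w.2 - X l w'.2) := by
      rw [e]
      exact Dvd.dvd.mul_left h1 _
    have hp : Prime (w.1 : ℤ) := Nat.prime_iff_prime_int.1 (hC.prm _ (hW w hw).g)
    rcases hp.dvd_or_dvd h2 with h3 | h3
    · exfalso
      have h4 := Int.eq_zero_of_abs_lt_dvd h3 (hbig _ (hW w hw).g)
      exact hkD (sub_eq_zero.1 h4)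
    · exact h3

/-- one dyadic class of flags -/
theorem tri_class (hM : ∀ m ∈ M, IsM N P c S m) {W : Finset (ℕ × MT)}
    (hW : ∀ w ∈ W, IsF P c D M w) {k l : ℤ} (hC : Cfg N P) (hkl : k ≠ l) (hkD : k ≠ D)
    (hlS : l ∈ S) (hbig : ∀ p ∈ P, |k - D| < (p : ℤ)) (hn : (M.image (X l)).card ≤ n) (b : ℕ) :
    (W.filter fun w => 2 ^ b < rr W k w ∧ rr W l w ≤ 2 ^ (b + 1)).card ≤ 2 * n ^ 2 := by
  classical
  obtain ⟨Cl, hCl⟩ : ∃ Cl : Finset (ℕ × MT), Cl =
      W.filter fun w => 2 ^ b < rr W k w ∧ rr W l w ≤ 2 ^ (b + 1) := ⟨_, rfl⟩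
  obtain ⟨Q, hQ⟩ : ∃ Q : Finset ((ℕ × MT) × (ℕ × MT)), Q = (Cl ×ˢ W).filter fun q =>
      q.2.1 = q.1.1 ∧ X k q.2.2 = X k q.1.2 ∧ q.2 ≠ q.1 := ⟨_, rfl⟩
  rw [← hCl]
  have memC : ∀ w, w ∈ Cl ↔ w ∈ W ∧ 2 ^ b < rr W k w ∧ rr W l w ≤ 2 ^ (b + 1) := by
    intro w
    rw [hCl, Finset.mem_filter]
  have memQ : ∀ w w', (w, w') ∈ Q ↔ (w ∈ Cl ∧ w' ∈ W) ∧ w'.1 = w.1 ∧ X k w'.2 = X k w.2 ∧
      w' ≠ w := by
    intro w w'
    rw [hQ, Finset.mem_filter, Finset.mem_product]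
  have low : 2 ^ b * Cl.card ≤ Q.card := by
    apply Finset.mul_card_image_le_card_of_maps_to (f := fun q => q.1)
    · rintro ⟨w, w'⟩ hq
      exact ((memQ w w').1 hq).1.1
    · intro w hw
      obtain ⟨hwW, hw1, hw2⟩ := (memC w).1 hw
      have h1 : 2 ^ b ≤ ((W.filter fun w' => w'.1 = w.1 ∧ X k w'.2 = X k w.2).erase w).card := by
        rw [Finset.card_erase_of_mem (by rw [Finset.mem_filter]; exact ⟨hwW, rfl, rfl⟩)]
        unfold rr at hw1
        omega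
      refine h1.trans ?_
      apply Finset.card_le_card_of_injOn (fun w' => (w, w'))
      · intro w' hw'
        rw [Finset.mem_coe, Finset.mem_erase, Finset.mem_filter] at hw'
        obtain ⟨a1, a2, a3, a4⟩ := hw'
        rw [Finset.mem_coe, Finset.mem_filter, memQ]
        exact ⟨⟨⟨hw, a2⟩, a3, a4, a1⟩, rfl⟩
      · intro x _ y _ e
        exact (Prod.mk.inj e).2
  have up : Q.card ≤ 2 ^ (b + 1) * ((M.image (X l)) ×ˢ (M.image (X l))).card := by
    apply Finset.card_le_mul_card_image_of_maps_to (f := fun q => (X l q.1.2, X l q.2.2))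
    · rintro ⟨w, w'⟩ hq
      obtain ⟨⟨a1, a2⟩, -⟩ := (memQ w w').1 hq
      rw [Finset.mem_product]
      exact ⟨Finset.mem_image_of_mem _ (hW w ((memC w).1 a1).1).m,
        Finset.mem_image_of_mem _ (hW w' a2).m⟩
    · rintro ⟨x, x'⟩ _
      rcases (Q.filter fun q => (X l q.1.2, X l q.2.2) = (x, x')).eq_empty_or_nonempty with
        he | ⟨⟨w0, w0'⟩, h0⟩
      · rw [he, Finset.card_empty]
        exact Nat.zero_le _
      · have fact : ∀ w w', (w, w') ∈ (Q.filter fun q => (X l q.1.2, X l q.2.2) = (x, x')) →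
            w ∈ W ∧ w' ∈ W ∧ w'.1 = w.1 ∧ X k w'.2 = X k w.2 ∧ X l w.2 = x ∧ X l w'.2 = x' ∧
            X l w.2 ≠ X l w'.2 ∧ (w.1 : ℤ) ∣ x - x' ∧ rr W l w ≤ 2 ^ (b + 1) := by
          intro w w' hq
          rw [Finset.mem_filter, memQ, memC] at hq
          obtain ⟨⟨⟨⟨a1, a2, a3⟩, a4⟩, a5, a6, a7⟩, e⟩ := hq
          simp only [Prod.mk.injEq] at e
          obtain ⟨e1, e2⟩ := e
          have h3 := tri_div hM hW hC hkl hkD hbig a1 a4 a5 a6 a7
          refine ⟨a1, a4, a5, a6, e1, e2, h3.1, ?_, a3⟩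
          rw [← e1, ← e2]
          exact h3.2
        obtain ⟨f1, f2, f3, f4, f5, f6, f7, f8, f9⟩ := fact _ _ h0
        have hI0 : x ∈ Icc (1 : ℤ) N := by rw [← f5]; exact (hM _ (hW _ f1).m).sl l hlS
        have hI0' : x' ∈ Icc (1 : ℤ) N := by rw [← f6]; exact (hM _ (hW _ f2).m).sl l hlS
        have hz : x - x' ≠ 0 := by
          rw [← f5, ← f6]
          exact sub_ne_zero.2 f7
        refine le_trans ?_ f9
        unfold rr
        apply Finset.card_le_card_of_injOn (fun q => q.1)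
        · rintro ⟨w, w'⟩ hq
          rw [Finset.mem_coe] at hq
          obtain ⟨g1, g2, g3, g4, g5, g6, g7, g8, g9⟩ := fact _ _ hq
          rw [Finset.mem_coe, Finset.mem_filter]
          exact ⟨g1, uniq hC (hW _ g1).g (hW _ f1).g hz (absIcc hI0 hI0') g8 f8, by rw [g5, f5]⟩
        · rintro ⟨w, w'⟩ hq ⟨u, u'⟩ hq' e
          rw [Finset.mem_coe] at hq hq'
          simp only at e
          subst e
          obtain ⟨g1, g2, g3, g4, g5, g6, g7, g8, g9⟩ := fact _ _ hq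
          obtain ⟨k1, k2, k3, k4, k5, k6, k7, k8, k9⟩ := fact _ _ hq'
          have h1 : w'.2 = u'.2 := IsM.ext2 hC (hM _ (hW _ g2).m) (hM _ (hW _ k2).m) hkl
            (by rw [g4, k4]) (by rw [g6, k6])
          have h2 : w' = u' := Prod.ext (by rw [g3, k3]) h1
          rw [h2]
  rw [Finset.card_product] at up
  have h1 : 2 ^ b * Cl.card ≤ 2 ^ b * (2 * n ^ 2) := by
    calc 2 ^ b * Cl.card ≤ 2 ^ (b + 1) * ((M.image (X l)).card * (M.image (X l)).card) :=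
          low.trans up
      _ ≤ 2 ^ (b + 1) * (n * n) := Nat.mul_le_mul_left _ (Nat.mul_le_mul hn hn)
      _ = 2 ^ b * (2 * n ^ 2) := by ring
  exact Nat.le_of_mul_le_mul_left h1 (by positivity)

/-- few flags share a slice point with another flag of the same `g` -/
theorem tri_total (hM : ∀ m ∈ M, IsM N P c S m) {W : Finset (ℕ × MT)}
    (hW : ∀ w ∈ W, IsF P c D M w) {k l : ℤ} (hC : Cfg N P) (hkl : k ≠ l) (hkD : k ≠ D)
    (hlD : l ≠ D) (hkS : k ∈ S) (hlS : l ∈ S) (hbig : ∀ p ∈ P, |k - D| < (p : ℤ))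
    (hbig' : ∀ p ∈ P, |l - D| < (p : ℤ)) (hnk : (M.image (X k)).card ≤ n)
    (hnl : (M.image (X l)).card ≤ n) {L : ℕ} (hL : W.card ≤ 2 ^ L) :
    (W.filter fun w => 2 ≤ rr W k w).card ≤ 4 * L * n ^ 2 := by
  classical
  have hsub : (W.filter fun w => 2 ≤ rr W k w) ⊆ (range L).biUnion fun b =>
      (W.filter fun w => 2 ^ b < rr W k w ∧ rr W l w ≤ 2 ^ (b + 1)) ∪
      (W.filter fun w => 2 ^ b < rr W l w ∧ rr W k w ≤ 2 ^ (b + 1)) := by
    intro w hw
    rw [Finset.mem_filter] at hw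
    obtain ⟨hw1, hw2⟩ := hw
    obtain ⟨ρ, hρ⟩ : ∃ ρ : ℕ, ρ = max (rr W k w) (rr W l w) := ⟨_, rfl⟩
    have hρ2 : 2 ≤ ρ := by rw [hρ]; exact hw2.trans (le_max_left _ _)
    have hρk : rr W k w ≤ ρ := by rw [hρ]; exact le_max_left _ _
    have hρl : rr W l w ≤ ρ := by rw [hρ]; exact le_max_right _ _
    have hρL : ρ ≤ 2 ^ L := by
      rw [hρ]
      apply max_le
      · exact (Finset.card_filter_le _ _).trans hL
      · exact (Finset.card_filter_le _ _).trans hL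
    have hb1 : 2 ^ Nat.log 2 (ρ - 1) ≤ ρ - 1 := Nat.pow_log_le_self 2 (by omega)
    have hb2 : ρ - 1 < 2 ^ (Nat.log 2 (ρ - 1) + 1) := Nat.lt_pow_succ_log_self (by norm_num) _
    have hbL : Nat.log 2 (ρ - 1) < L := Nat.log_lt_of_lt_pow (by omega) (by omega)
    rw [Finset.mem_biUnion]
    refine ⟨Nat.log 2 (ρ - 1), Finset.mem_range.2 hbL, ?_⟩
    rw [Finset.mem_union, Finset.mem_filter, Finset.mem_filter]
    rcases max_choice (rr W k w) (rr W l w) with h | h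
    · left
      rw [h] at hρ
      exact ⟨hw1, by omega, by omega⟩
    · right
      rw [h] at hρ
      exact ⟨hw1, by omega, by omega⟩
  calc (W.filter fun w => 2 ≤ rr W k w).card ≤ _ := Finset.card_le_card hsub
    _ ≤ (range L).card * (4 * n ^ 2) := by
        apply Finset.card_biUnion_le_card_mul
        intro b _
        refine (Finset.card_union_le _ _).trans ?_
        have h1 := tri_class hM hW hC hkl hkD hlS hbig hnl b
        have h2 := tri_class hM hW hC hkl.symm hlD hkS hbig' hnk b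
        linarith
    _ = 4 * L * n ^ 2 := by rw [Finset.card_range]; ring

end tri

end Pool.Agent.FC
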